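import Pool.Agent.TH497.T4.K3

set_option autoImplicit false
set_option linter.unusedSectionVars false

/-!
# Flows with values in a symmetric set, and minimal graphs for their extension property
-/

namespace Pool.Agent.Zk83.AT

open Finset
open Pool.Agent.TH462.T4 (crs mem_crs nl mem_nl)
open Pool.Agent.TH676.T4 (Nis)
open Pool.Agent.TH497.T4 (Closed tch mem_tch Conn Att comp crs_compl link)

variable {V E Γ : Type} [Fintype V] [DecidableEq V] [Fintype E] [DecidableEq E] [AddCommGroup Γ]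

/-- the boundary (outgoing minus incoming) -/
def bd (s t : E → V) (f : E → Γ) (v : V) : Γ :=
  ∑ e, ((if s e = v then f e else 0) - (if t e = v then f e else 0))

/-- the restriction to `F` -/
def rs (F : Finset E) (f : E → Γ) (e : E) : Γ := if e ∈ F then f e else 0

theorem rs_add_compl (F : Finset E) (f : E → Γ) : rs F f + rs Fᶜ f = f := by
  funext e
  by_cases h : e ∈ F <;> simp [rs, h]

theorem bd_add (s t : E → V) (f g : E → Γ) (v : V) :
    bd s t (f + g) v = bd s t f v + bd s t g v := by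
  unfold bd
  rw [← sum_add_distrib]
  refine sum_congr rfl fun e _ => ?_
  by_cases h1 : s e = v <;> by_cases h2 : t e = v <;> simp [h1, h2] <;> abel

theorem bd_single (s t : E → V) (e : E) (x : Γ) (v : V) :
    bd s t (Pi.single e x) v = (if s e = v then x else 0) - (if t e = v then x else 0) := by
  unfold bd
  rw [sum_eq_single e]
  · simp
  · intro b _ hb
    simp [Pi.single_eq_of_ne hb]
  · intro h; exact absurd (mem_univ e) h

/-- only the values on the proper edges at `v` matter -/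
theorem bd_eq_of {s t : E → V} {f g : E → Γ} {v : V}
    (h : ∀ e, s e ≠ t e → (s e = v ∨ t e = v) → f e = g e) : bd s t f v = bd s t g v := by
  unfold bd
  refine sum_congr rfl fun e _ => ?_
  by_cases he : s e = t e
  · rw [he]; simp
  · by_cases h1 : s e = v
    · rw [h e he (Or.inl h1)]
    · by_cases h2 : t e = v
      · rw [h e he (Or.inr h2)]
      · simp [h1, h2]

theorem bd_zero_of {s t : E → V} {f : E → Γ} {v : V}
    (h : ∀ e, s e ≠ t e → (s e = v ∨ t e = v) → f e = 0) : bd s t f v = 0 := by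
  have h1 : bd s t f v = bd s t (fun _ => 0) v := bd_eq_of h
  rw [h1]
  unfold bd
  simp

theorem sum_bd (s t : E → V) (f : E → Γ) (Y : Finset V) :
    ∑ v ∈ Y, bd s t f v = ∑ e ∈ crs s t Y, (if s e ∈ Y then f e else - f e) := by
  unfold bd crs
  rw [sum_comm, sum_filter]
  refine sum_congr rfl fun e _ => ?_
  rw [sum_sub_distrib, sum_ite_eq, sum_ite_eq]
  by_cases h1 : s e ∈ Y <;> by_cases h2 : t e ∈ Y <;> simp [h1, h2]

theorem sum_bd_univ (s t : E → V) (f : E → Γ) : ∑ v, bd s t f v = 0 := by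
  rw [sum_bd]
  refine sum_eq_zero fun e he => ?_
  rw [mem_crs] at he
  exact absurd (Iff.intro (fun _ => mem_univ _) (fun _ => mem_univ _)) he

theorem bd_crs (s t : E → V) (f : E → Γ) (w : V) :
    bd s t f w = ∑ e ∈ crs s t {w}, (if s e = w then f e else - f e) := by
  have h := sum_bd s t f {w}
  rw [sum_singleton] at h
  rw [h]
  refine sum_congr rfl fun e _ => ?_
  simp

theorem mem_crs1 {s t : E → V} {w : V} {e : E} :
    e ∈ crs s t {w} ↔ s e ≠ t e ∧ (s e = w ∨ t e = w) := by
  rw [mem_crs, mem_singleton, mem_singleton]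
  constructor
  · intro h
    refine ⟨fun h1 => h (by rw [h1]), by tauto⟩
  · rintro ⟨h1, h2⟩ h3
    apply h1
    rcases h2 with h2 | h2
    · rw [h2, h3.mp h2]
    · rw [h2, h3.mpr h2]

/-- changing the values on loops -/
theorem bd_rs_crs (s t : E → V) (f : E → Γ) (w : V) :
    bd s t (rs (crs s t {w}) f) w = bd s t f w := by
  refine bd_eq_of fun e h1 h2 => ?_
  unfold rs
  rw [if_pos (mem_crs1.mpr ⟨h1, h2⟩)]

/-- deletion of `D`: its edges are made loops -/
def dl (s t : E → V) (D : Finset E) (e : E) : V := if e ∈ D then s e else t e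

theorem bd_dl (s t : E → V) (D : Finset E) (f : E → Γ) (v : V) :
    bd s (dl s t D) f v = bd s t (rs Dᶜ f) v := by
  unfold bd
  refine sum_congr rfl fun e _ => ?_
  unfold dl rs
  by_cases h : e ∈ D <;> simp [h]

theorem crs_dl {s t : E → V} {D : Finset E} {Y : Finset V} :
    crs s (dl s t D) Y = crs s t Y \ D := by
  ext d
  rw [mem_crs, mem_sdiff, mem_crs]
  unfold dl
  by_cases h : d ∈ D
  · simp [h]
  · simp [h]

/-- contraction of `K` to `k` -/
def cK (K : Finset V) (k : V) (s : E → V) (e : E) : V := if s e ∈ K then k else s e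

theorem cK_one (k : V) (s : E → V) : cK {k} k s = s := by
  funext e
  unfold cK
  split_ifs with h
  · exact (mem_singleton.mp h).symm
  · rfl

theorem cK_out {K : Finset V} {k : V} (hk : k ∈ K) (s : E → V) {v : V} (hv : v ∉ K) (e : E) :
    cK K k s e = v ↔ s e = v := by
  unfold cK
  split_ifs with h
  · exact ⟨fun h1 => absurd (h1 ▸ hk) hv, fun h1 => absurd (h1 ▸ h) hv⟩
  · exact Iff.rfl

theorem bd_cK {K : Finset V} {k : V} (hk : k ∈ K) (s t : E → V) (f : E → Γ) {v : V}
    (hv : v ∉ K) : bd (cK K k s) (cK K k t) f v = bd s t f v := by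
  unfold bd
  refine sum_congr rfl fun e _ => ?_
  simp only [cK_out hk s hv, cK_out hk t hv]

theorem bd_cK_zero {K : Finset V} {k : V} (s t : E → V) (f : E → Γ) {v : V}
    (hv : v ∈ K) (hvk : v ≠ k) : bd (cK K k s) (cK K k t) f v = 0 := by
  have h1 : ∀ (s : E → V) e, cK K k s e ≠ v := by
    intro s e h
    unfold cK at h
    split_ifs at h with h2
    · exact hvk h.symm
    · exact h2 (h ▸ hv)
  unfold bd
  refine sum_eq_zero fun e _ => ?_
  rw [if_neg (h1 s e), if_neg (h1 t e), sub_zero]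

/-- the preimage of a set under a contraction -/
def pre (K : Finset V) (k : V) (Y : Finset V) : Finset V :=
  univ.filter (fun v => (if v ∈ K then k else v) ∈ Y)

theorem mem_pre {K : Finset V} {k : V} {Y : Finset V} {v : V} :
    v ∈ pre K k Y ↔ (if v ∈ K then k else v) ∈ Y := by simp [pre]

theorem crs_cK {s t : E → V} {K : Finset V} {k : V} {Y : Finset V} :
    crs (cK K k s) (cK K k t) Y = crs s t (pre K k Y) := by
  ext d
  rw [mem_crs, mem_crs, mem_pre, mem_pre]
  exact Iff.rfl

/-- the minor: `K` is contracted to `k` and the edges of `D` are deleted -/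
theorem crs_mn {s t : E → V} {K : Finset V} {k : V} {D : Finset E} {Y : Finset V} :
    crs (cK K k s) (dl (cK K k s) (cK K k t) D) Y = crs s t (pre K k Y) \ D := by
  rw [crs_dl, crs_cK]

theorem bd_mn {K : Finset V} {k : V} (hk : k ∈ K) (s t : E → V) (D : Finset E) (f : E → Γ) {v : V}
    (hv : v ∉ K) : bd (cK K k s) (dl (cK K k s) (cK K k t) D) f v = bd s t (rs Dᶜ f) v := by
  rw [bd_dl, bd_cK hk s t _ hv]

/-- flows with values in `A` -/
def AF (A : Γ → Prop) (s t : E → V) (f : E → Γ) : Prop := (∀ v, bd s t f v = 0) ∧ ∀ e, A (f e)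

/-- There is a flow with values in `A`; all values at a vertex with three proper edges and all
values at an edge extend. -/
structure Pr (A : Γ → Prop) (s t : E → V) : Prop where
  ex : ∃ f, AF A s t f
  fv : ∀ w, (crs s t {w}).card = 3 → ∀ g : E → Γ, bd s t g w = 0 →
    (∀ e ∈ crs s t {w}, A (g e)) → ∃ f, AF A s t f ∧ ∀ e ∈ crs s t {w}, f e = g e
  fe : ∀ e x, s e ≠ t e → A x → ∃ f, AF A s t f ∧ f e = x

/-- the value at a loop is free -/
theorem Pr.fe' {A : Γ → Prop} {s t : E → V} (h : Pr A s t) (e : E) (x : Γ) (hx : A x) :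
    ∃ f, AF A s t f ∧ f e = x := by
  by_cases he : s e = t e
  · obtain ⟨f, h1, h2⟩ := h.ex
    refine ⟨Function.update f e x, ⟨fun v => ?_, fun d => ?_⟩, by simp⟩
    · rw [← h1 v]
      refine bd_eq_of fun d hd _ => ?_
      have : d ≠ e := fun h3 => hd (h3 ▸ he)
      simp [this]
    · by_cases hd : d = e
      · subst hd; simpa using hx
      · simp only [Function.update_of_ne hd]; exact h2 d
  · exact h.fe e x he hx

structure MinH (A : Γ → Prop) (s t : E → V) : Prop where
  br : ∀ Y : Finset V, (crs s t Y).card ≠ 1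
  np : ¬ Pr A s t
  cr : ∀ (K : Finset V) (k : V) (D : Finset E), k ∈ K → Conn s t K →
    (∃ e, s e ≠ t e ∧ (e ∈ D ∨ (s e ∈ K ∧ t e ∈ K))) →
    (∀ Y : Finset V, (crs (cK K k s) (dl (cK K k s) (cK K k t) D) Y).card ≠ 1) →
    Pr A (cK K k s) (dl (cK K k s) (cK K k t) D)

/-- a class of graphs closed under deletions of edges and contractions of connected sets -/
structure Cls (Cl : (E → V) → (E → V) → Prop) : Prop where
  del : ∀ s t (D : Finset E), Cl s t → Cl s (dl s t D)
  con : ∀ s t (K : Finset V) (k : V), Cl s t → k ∈ K → Conn s t K → Cl (cK K k s) (cK K k t)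

theorem nl_mn_sub {s t : E → V} {K : Finset V} {k : V} {D : Finset E} :
    nl (cK K k s) (dl (cK K k s) (cK K k t) D) ⊆ nl s t := by
  intro e he
  rw [mem_nl] at he ⊢
  intro h
  apply he
  unfold dl cK
  split_ifs <;> simp_all

theorem exists_MinH {A : Γ → Prop} {Cl : (E → V) → (E → V) → Prop} (hCl : Cls Cl) {s t : E → V}
    (h1 : Cl s t) (h2 : ∀ Y : Finset V, (crs s t Y).card ≠ 1) (h3 : ¬ Pr A s t) :
    ∃ s' t' : E → V, Cl s' t' ∧ MinH A s' t' := by
  classical
  have hex : ∃ m, ∃ s d : E → V, Cl s d ∧ (∀ Y : Finset V, (crs s d Y).card ≠ 1) ∧ ¬ Pr A s d ∧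
      (nl s d).card = m := ⟨_, s, t, h1, h2, h3, rfl⟩
  obtain ⟨s', t', g1, g2, g3, g4⟩ := Nat.find_spec hex
  refine ⟨s', t', g1, g2, g3, ?_⟩
  rintro K k D hk hK ⟨e, he, heD⟩ hb
  by_contra hn
  refine Nat.find_min hex (m := (nl (cK K k s') (dl (cK K k s') (cK K k t') D)).card) ?_
    ⟨_, _, hCl.del _ _ D (hCl.con _ _ K k g1 hk hK), hb, hn, rfl⟩
  rw [← g4]
  refine card_lt_card ⟨nl_mn_sub, fun h => ?_⟩
  have h5 := h (mem_nl.mpr he)
  rw [mem_nl] at h5
  apply h5
  rcases heD with h6 | ⟨h6, h7⟩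
  · simp [dl, h6]
  · simp [dl, cK, h6, h7]

theorem conn_one (s t : E → V) (k : V) : Conn s t {k} := by
  intro Y _ y hy y' hy'
  rw [mem_singleton] at hy hy'
  rw [hy, hy']

/-- deletions only -/
theorem MinH.del {A : Γ → Prop} {s t : E → V} (h : MinH A s t) (D : Finset E)
    (hne : ∃ e ∈ D, s e ≠ t e) (hb : ∀ Y : Finset V, (crs s t Y \ D).card ≠ 1) :
    Pr A s (dl s t D) := by
  obtain ⟨e, he, he2⟩ := hne
  have h1 := h.cr {s e} (s e) D (mem_singleton_self _) (conn_one s t _) ⟨e, he2, Or.inl he⟩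
  rw [cK_one, cK_one] at h1
  exact h1 (fun Y => by rw [crs_dl]; exact hb Y)

/-- contractions only -/
theorem MinH.cn {A : Γ → Prop} {s t : E → V} (h : MinH A s t) {K : Finset V} {k : V} (hk : k ∈ K)
    (hK : Conn s t K) (hne : ∃ e, s e ≠ t e ∧ s e ∈ K ∧ t e ∈ K) :
    Pr A (cK K k s) (cK K k t) := by
  obtain ⟨e, he, he2⟩ := hne
  have h1 := h.cr K k ∅ hk hK ⟨e, he, Or.inr he2⟩ (fun Y => by
    rw [crs_mn, sdiff_empty]; exact h.br _)
  have h2 : dl (cK K k s) (cK K k t) ∅ = cK K k t := by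
    funext e; simp [dl]
  rw [h2] at h1
  exact h1

end Pool.Agent.Zk83.AT
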