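import Pool.Agent.Zk83.AT.Sep3
import Pool.Agent.N399.TB.Adh
import Pool.Agent.R890.FF.Cov

set_option autoImplicit false
set_option linter.unusedSectionVars false

/-!
# Tree decompositions of adhesion three
-/

namespace Pool.Agent.Zk83.AT

open Finset
open Pool.Agent.TH462.T4 (crs mem_crs nl mem_nl)
open Pool.Agent.TH676.T4 (Nis)
open Pool.Agent.TH497.T4 (Closed tch mem_tch Conn Att comp crs_compl link)
open Pool.Agent.N399.TB (Side side_or side_not side_first side_disj tree_sink side_path mid part)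
open Pool.Agent.TH362.TF (N1 NZ PQ)

variable {V E Γ : Type} [Fintype V] [DecidableEq V] [Fintype E] [DecidableEq E] [AddCommGroup Γ]

section
variable {ι : Type}

/-- a small part -/
def SmA (src dst : E → V) (T : SimpleGraph ι) (leaf : E → ι) (b : ι) : Prop :=
  ∃ (s : ℕ) (Z : Fin s → Finset V), (∀ i, (Z i).card ≤ 3) ∧
    (∀ w, T.Adj b w → ∃ i, ∀ v ∈ mid src dst T leaf b w, v ∈ Z i) ∧
    (part src dst T leaf b).ncard + ∑ i, ((Z i).card - 2) ≤ 17

/-- a part with a small vertex cover -/
def SmB (src dst : E → V) (T : SimpleGraph ι) (leaf : E → ι) (b : ι) : Prop :=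
  ∃ X : Finset V, X.card ≤ 9 ∧
    (∀ w, T.Adj b w → (mid src dst T leaf b w).ncard ≤ 3 ∧ ∀ v ∈ mid src dst T leaf b w, v ∈ X) ∧
    ∀ e, leaf e = b → src e ≠ dst e → src e ∈ X ∨ dst e ∈ X

structure AD (src dst : E → V) (T : SimpleGraph ι) (leaf : E → ι) : Prop where
  tree : T.IsTree
  pt : ∀ b, SmA src dst T leaf b ∨ SmB src dst T leaf b

end

def HasAD (src dst : E → V) : Prop :=
  ∃ (ι : Type) (_ : Fintype ι) (T : SimpleGraph ι) (leaf : E → ι), AD src dst T leaf

section
variable {ι : Type} {T : SimpleGraph ι} {leaf : E → ι} {s t : E → V}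

theorem end_dl {D : Finset E} {d : E} {v : V} (h : s d = v ∨ dl s t D d = v) :
    s d = v ∨ t d = v := by
  unfold dl at h
  split_ifs at h with h1
  · exact Or.inl (h.elim id id)
  · exact h

theorem mid_dl {D : Finset E} {a b : ι} {v : V} (h : v ∈ mid s (dl s t D) T leaf a b) :
    v ∈ mid s t T leaf a b := by
  obtain ⟨⟨d, h1, h2⟩, d', h3, h4⟩ := h
  exact ⟨⟨d, end_dl h1, h2⟩, d', end_dl h3, h4⟩

theorem part_dl {D : Finset E} {b : ι} {v : V} (h : v ∈ part s (dl s t D) T leaf b) :
    v ∈ part s t T leaf b := by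
  rcases h with ⟨d, h1, h2⟩ | ⟨w, hw, hv⟩
  · exact Or.inl ⟨d, end_dl h1, h2⟩
  · exact Or.inr ⟨w, hw, mid_dl hv⟩

/-- the contraction as a map of the vertices -/
def kk (K : Finset V) (k : V) (v : V) : V := if v ∈ K then k else v

theorem end_cK {K : Finset V} {k : V} {d : E} {v : V} (h : cK K k s d = v ∨ cK K k t d = v) :
    ∃ y, (s d = y ∨ t d = y) ∧ kk K k y = v := by
  rcases h with h1 | h1
  · exact ⟨_, Or.inl rfl, h1⟩
  · exact ⟨_, Or.inr rfl, h1⟩

theorem mid_cK {K : Finset V} {k : V} (hk : k ∈ K) (hK : Conn s t K) (hT : T.IsTree) {a b : ι}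
    {v : V} (h : v ∈ mid (cK K k s) (cK K k t) T leaf a b) :
    ∃ y ∈ mid s t T leaf a b, kk K k y = v := by
  classical
  obtain ⟨⟨d, h1, h2⟩, d', h3, h4⟩ := h
  obtain ⟨y, hy, hyv⟩ := end_cK h1
  obtain ⟨y', hy', hyv'⟩ := end_cK h3
  have hkk : ∀ z, kk K k z = v → (z ∈ K ∧ v = k) ∨ (z ∉ K ∧ z = v) := by
    intro z hz
    unfold kk at hz
    split_ifs at hz with h5
    · exact Or.inl ⟨h5, hz.symm⟩
    · exact Or.inr ⟨h5, hz⟩
  rcases hkk y hyv with ⟨g1, g2⟩ | ⟨g1, g2⟩
  · rcases hkk y' hyv' with ⟨g3, _⟩ | ⟨g3, g4⟩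
    · -- both ends are in `K`
      by_contra hno
      push Not at hno
      have hno' : ∀ z ∈ K, z ∉ mid s t T leaf a b := by
        intro z hz hm
        exact hno z hm (by unfold kk; rw [if_pos hz, g2])
      have h5 := hK (univ.filter (fun x => ∃ e, (s e = x ∨ t e = x) ∧ leaf e ∈ Side T a b)) (by
        intro e he1 he2
        rw [mem_filter, mem_filter]
        simp only [mem_univ, true_and]
        rcases side_or hT (a := a) (b := b) (leaf e) with h6 | h6
        · exact ⟨fun _ => ⟨e, Or.inr rfl, h6⟩, fun _ => ⟨e, Or.inl rfl, h6⟩⟩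
        · exact ⟨fun h7 => absurd ⟨h7, e, Or.inl rfl, h6⟩ (hno' _ he1),
            fun h7 => absurd ⟨h7, e, Or.inr rfl, h6⟩ (hno' _ he2)⟩) y g1 y' g3
      rw [mem_filter, mem_filter] at h5
      have h6 := (h5.mp ⟨mem_univ _, d, hy, h2⟩).2
      exact hno' y' g3 ⟨h6, d', hy', h4⟩
    · exact absurd (g4.trans g2 ▸ hk) g3
  · rcases hkk y' hyv' with ⟨g3, g4⟩ | ⟨g3, g4⟩
    · exact absurd (g2.trans g4 ▸ hk) g1
    · subst g2
      subst g4
      exact ⟨y', ⟨⟨d, hy, h2⟩, d', hy', h4⟩, hyv⟩

theorem part_cK {K : Finset V} {k : V} (hk : k ∈ K) (hK : Conn s t K) (hT : T.IsTree) {b : ι}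
    {v : V} (h : v ∈ part (cK K k s) (cK K k t) T leaf b) :
    ∃ y ∈ part s t T leaf b, kk K k y = v := by
  rcases h with ⟨d, h1, h2⟩ | ⟨w, hw, hv⟩
  · obtain ⟨y, hy, hyv⟩ := end_cK h1
    exact ⟨y, Or.inl ⟨d, hy, h2⟩, hyv⟩
  · obtain ⟨y, hy, hyv⟩ := mid_cK hk hK hT hv
    exact ⟨y, Or.inr ⟨w, hw, hy⟩, hyv⟩

theorem cls_ad : Cls (V := V) (E := E) HasAD where
  del := by
    rintro s t D ⟨ι, _, T, leaf, h⟩
    refine ⟨ι, inferInstance, T, leaf, h.tree, fun b => ?_⟩
    rcases h.pt b with ⟨n, Z, z1, z2, z3⟩ | ⟨X, x1, x2, x3⟩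
    · refine Or.inl ⟨n, Z, z1, fun w hw => ?_, ?_⟩
      · obtain ⟨i, hZ2⟩ := z2 w hw
        exact ⟨i, fun v hv => hZ2 v (mid_dl hv)⟩
      · exact le_trans (Nat.add_le_add_right
          (Set.ncard_le_ncard (fun v hv => part_dl hv) (Set.toFinite _)) _) z3
    · refine Or.inr ⟨X, x1, fun w hw => ⟨?_, fun v hv => (x2 w hw).2 v (mid_dl hv)⟩,
        fun e he hne => ?_⟩
      · exact (Set.ncard_le_ncard (fun v hv => mid_dl hv) (Set.toFinite _)).trans (x2 w hw).1
      · have h1 : e ∉ D := by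
          intro h1; apply hne; unfold dl; rw [if_pos h1]
        have h2 : dl s t D e = t e := by unfold dl; rw [if_neg h1]
        rw [h2] at hne ⊢
        exact x3 e he hne
  con := by
    rintro s t K k ⟨ι, _, T, leaf, h⟩ hk hK
    refine ⟨ι, inferInstance, T, leaf, h.tree, fun b => ?_⟩
    rcases h.pt b with ⟨n, Z, z1, z2, z3⟩ | ⟨X, x1, x2, x3⟩
    · refine Or.inl ⟨n, fun i => (Z i).image (kk K k), ?_, fun w hw => ?_, ?_⟩
      · intro i
        exact card_image_le.trans (z1 i)
      · obtain ⟨i, hZ2⟩ := z2 w hw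
        refine ⟨i, fun v hv => ?_⟩
        obtain ⟨y, hy, rfl⟩ := mid_cK hk hK h.tree hv
        exact mem_image_of_mem _ (hZ2 y hy)
      · have h1 : (part (cK K k s) (cK K k t) T leaf b).ncard ≤ (part s t T leaf b).ncard := by
          refine le_trans (Set.ncard_le_ncard ?_ (Set.toFinite _))
            (Set.ncard_image_le (f := kk K k) (Set.toFinite _))
          intro v hv
          obtain ⟨y, hy, rfl⟩ := part_cK hk hK h.tree hv
          exact ⟨y, hy, rfl⟩
        have h2 : ∑ i, (((Z i).image (kk K k)).card - 2) ≤ ∑ i, ((Z i).card - 2) :=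
          sum_le_sum fun i _ => Nat.sub_le_sub_right card_image_le 2
        exact (Nat.add_le_add h1 h2).trans z3
    · refine Or.inr ⟨X.image (kk K k), card_image_le.trans x1, fun w hw => ⟨?_, fun v hv => ?_⟩,
        fun e he hne => ?_⟩
      · refine le_trans (Set.ncard_le_ncard ?_ (Set.toFinite _))
          (le_trans (Set.ncard_image_le (f := kk K k) (s := mid s t T leaf b w) (Set.toFinite _))
            (x2 w hw).1)
        intro v hv
        obtain ⟨y, hy, rfl⟩ := mid_cK hk hK h.tree hv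
        exact ⟨y, hy, rfl⟩
      · obtain ⟨y, hy, rfl⟩ := mid_cK hk hK h.tree hv
        exact mem_image_of_mem _ ((x2 w hw).2 y hy)
      · have hne' : s e ≠ t e := by
          intro h1; apply hne; unfold cK; rw [h1]
        rcases x3 e he hne' with h1 | h1
        · exact Or.inl (mem_image_of_mem (kk K k) h1)
        · exact Or.inr (mem_image_of_mem (kk K k) h1)

end

theorem n1_of_min {A : Γ → Prop} {s t : E → V} (h : MinH A s t) : N1 s t univ := by
  apply Y642.RN.n1_of
  intro Y
  exact h.br Y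

open Classical in
theorem nz_small {s t : E → V} (hn : N1 s t univ)
    (h17 : (univ.filter (fun v => Nis s t v)).card ≤ 17) : NZ s t univ ∨ PQ s t univ := by
  refine TH362.TF.main16 s t univ hn ?_
  have h2 := TH362.TF.parity s t univ (fun _ => true)
  have h3 : TH362.TF.cut s t univ (fun _ => true) = ∅ := by
    unfold TH362.TF.cut
    rw [Finset.filter_eq_empty_iff]
    intro x _ hx
    exact hx rfl
  rw [h3, card_empty] at h2
  have h4 : (TH362.TF.odd s t univ).filter (fun _ => (true : Bool) = true) =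
      TH362.TF.odd s t univ := by
    rw [Finset.filter_eq_self]
    intro x _
    rfl
  rw [h4] at h2
  have h5 : (TH362.TF.odd s t univ).card ≤ (univ.filter (fun v => Nis s t v)).card := by
    refine card_le_card (?_ : TH362.TF.odd s t univ ⊆ _)
    intro v hv
    rw [TH362.TF.odd, mem_filter] at hv
    rw [mem_filter]
    refine ⟨mem_univ _, ?_⟩
    by_contra hno
    have h3 : ∀ e, s e = t e ∨ (s e ≠ v ∧ t e ≠ v) := by
      intro e
      by_contra h4
      push Not at h4
      refine hno ⟨e, h4.1, ?_⟩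
      by_cases h5 : s e = v
      · exact Or.inl h5
      · exact Or.inr (h4.2 h5)
    have h4 : Even (TH362.TF.deg s t univ v) := by
      unfold TH362.TF.deg
      refine Finset.even_sum _ fun e _ => ?_
      rcases h3 e with h5 | ⟨h5, h6⟩
      · rw [h5]
        exact Even.add_self _
      · rw [if_neg h5, if_neg h6]
        exact Even.add_self _
    exact (Nat.not_even_iff_odd.mpr hv.2) h4
  omega

open Classical in
theorem ad_nz {A : Γ → Prop} (hA : ∀ x, A x → A (-x)) {src dst : E → V} (hM : MinH A src dst)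
    (hB : HasAD src dst) : NZ src dst univ ∨ PQ src dst univ := by
  obtain ⟨ι, _, T, leaf, h⟩ := hB
  set N : Finset V := univ.filter (fun v => Nis src dst v) with hN
  set I : ι → ι → Finset V := fun a b =>
    univ.filter (fun x => ∀ e, (src e = x ∨ dst e = x) → leaf e ∈ Side T a b) with hI
  have memI : ∀ a b x, x ∈ I a b ↔ ∀ e, (src e = x ∨ dst e = x) → leaf e ∈ Side T a b := by
    intro a b x; simp [hI]
  -- the set `I a b` is attached to the middle set
  have hatt : ∀ a b, T.Adj a b → ∀ e, (src e ∈ I a b ∨ dst e ∈ I a b) → ∀ x,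
      (src e = x ∨ dst e = x) → x ∈ I a b ∨ x ∈ mid src dst T leaf a b := by
    intro a b hab e he x hx
    have h1 : leaf e ∈ Side T a b := by
      rcases he with h2 | h2
      · exact (memI a b _).mp h2 e (Or.inl rfl)
      · exact (memI a b _).mp h2 e (Or.inr rfl)
    by_cases h3 : x ∈ I a b
    · exact Or.inl h3
    · rw [memI] at h3
      push Not at h3
      obtain ⟨d, hd, hd2⟩ := h3
      exact Or.inr ⟨⟨e, hx, h1⟩, d, hd, (side_or h.tree (leaf d)).resolve_left hd2⟩
  -- separations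
  have hsep : ∀ (Z J : Finset V), Z.card ≤ 3 →
      (∀ e, (src e ∈ J ∨ dst e ∈ J) → ∀ x, (src e = x ∨ dst e = x) → x ∈ J ∨ x ∈ Z) →
      (J ∩ N).card ≤ Z.card - 2 ∨ ((J ∪ Z)ᶜ ∩ N).card ≤ Z.card - 2 := by
    intro Z J hZ hJ
    by_contra hno
    push Not at hno
    obtain ⟨g1, g2⟩ := hno
    have hO : ∀ y ∈ (J ∪ Z)ᶜ ∩ N, y ∉ J ∧ y ∉ Z ∧ Nis src dst y := by
      intro y hy
      rw [mem_inter, mem_compl, mem_union, not_or] at hy
      exact ⟨hy.1.1, hy.1.2, (mem_filter.mp hy.2).2⟩
    have hx : ∀ x ∈ J ∩ N, x ∈ J ∧ Nis src dst x := by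
      intro x hx
      obtain ⟨h1, h2⟩ := mem_inter.mp hx
      exact ⟨h1, (mem_filter.mp h2).2⟩
    have hc : Closed src dst Z J := by
      intro e he
      exact ⟨mem_union.mpr (hJ e he _ (Or.inl rfl)), mem_union.mpr (hJ e he _ (Or.inr rfl))⟩
    by_cases hZ3 : Z.card = 3
    · rw [hZ3] at g1 g2
      obtain ⟨x1, m1, x2, m2, n12⟩ := one_lt_card.mp (show 1 < _ from g1)
      obtain ⟨y1, k1, y2, k2, l12⟩ := one_lt_card.mp (show 1 < _ from g2)
      exact sep3 hA hM hc (by omega) (hx _ m1).1 (hx _ m1).2 (hx _ m2).1 (hx _ m2).2 n12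
        (hO _ k1).1 (hO _ k1).2.1 (hO _ k1).2.2 (hO _ k2).1 (hO _ k2).2.1 (hO _ k2).2.2 l12
    · obtain ⟨x, m1⟩ := card_pos.mp (show 0 < (J ∩ N).card by omega)
      obtain ⟨y, k1⟩ := card_pos.mp (show 0 < ((J ∪ Z)ᶜ ∩ N).card by omega)
      exact sep2 hA hM hc (by omega) (hx _ m1).1 (hx _ m1).2 (hO _ k1).1 (hO _ k1).2.1 (hO _ k1).2.2
  have hnot : ∀ a b, T.Adj a b → ∀ x ∈ I a b, x ∉ mid src dst T leaf a b := by
    intro a b hab x hx hz
    obtain ⟨-, d, hd, hd2⟩ := hz
    exact side_not h.tree hab ((memI a b x).mp hx d hd) hd2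
  have hm3 : ∀ a b, T.Adj a b → (mid src dst T leaf a b).ncard ≤ 3 := by
    intro a b hab
    rcases h.pt a with ⟨s, Z, z1, z2, -⟩ | ⟨X, x1, x2, -⟩
    · obtain ⟨i, hZ2⟩ := z2 b hab
      refine le_trans (Set.ncard_le_ncard (t := (↑(Z i) : Set V)) (fun v hv => ?_)
        (Set.toFinite _)) (by rw [Set.ncard_coe_finset]; exact z1 i)
      exact hZ2 v hv
    · exact (x2 b hab).1
  -- one of the two sides is small
  have hsm : ∀ a b, T.Adj a b → (I a b ∩ N).card ≤ 1 ∨ (I b a ∩ N).card ≤ 1 := by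
    intro a b hab
    set Z' : Finset V := univ.filter (fun v => v ∈ mid src dst T leaf a b) with hZ'
    have hmem : ∀ x, x ∈ Z' ↔ x ∈ mid src dst T leaf a b := by
      intro x
      rw [hZ', mem_filter]
      exact ⟨fun h1 => h1.2, fun h1 => ⟨mem_univ _, h1⟩⟩
    have hZ'c : Z'.card ≤ 3 := by
      have h1 := hm3 a b hab
      rw [Set.ncard_eq_toFinset_card'] at h1
      refine le_trans (card_le_card ?_) h1
      intro x hx
      rw [Set.mem_toFinset]
      exact (hmem x).mp hx
    rcases hsep Z' (I a b) hZ'c (fun e he x hx => by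
        rw [hmem]; exact hatt a b hab e he x hx) with h1 | h1
    · exact Or.inl (h1.trans (by omega))
    · refine Or.inr (le_trans (card_le_card ?_) (h1.trans (show Z'.card - 2 ≤ 1 by omega)))
      intro y hy
      obtain ⟨h2, h3⟩ := mem_inter.mp hy
      obtain ⟨e, _, he⟩ := (mem_filter.mp h3).2
      refine mem_inter.mpr ⟨?_, h3⟩
      rw [mem_compl, mem_union, not_or, hmem]
      refine ⟨fun h4 => ?_, fun h4 => ?_⟩
      · exact side_not h.tree hab ((memI a b y).mp h4 e he) ((memI b a y).mp h2 e he)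
      · obtain ⟨⟨d, hd, hd2⟩, -⟩ := h4
        exact side_not h.tree hab hd2 ((memI b a y).mp h2 d hd)
  obtain ⟨v, hv⟩ := tree_sink h.tree _ hsm
  rcases h.pt v with ⟨s, Z, z1, z2, z3⟩ | ⟨X, x1, x2, x3⟩
  · by_contra hnz
    have hn : ¬ N.card ≤ 17 := fun h17 => hnz (nz_small (n1_of_min hM) h17)
    set D : Finset ι := univ.filter (fun w => T.Adj v w) with hD
    have memD : ∀ w, w ∈ D ↔ T.Adj v w := by intro w; simp [hD]
    -- the vertices of the part of `v`
    set P : Finset V := univ.filter (fun x => x ∈ part src dst T leaf v) with hP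
    have memP : ∀ x, x ∈ P ↔ x ∈ part src dst T leaf v := by intro x; simp [hP]
    have hPI : ∀ w, T.Adj v w → ∀ x ∈ I v w, x ∉ P := by
      intro w hw x hx hxP
      have hx' := (memI v w x).mp hx
      rcases (memP x).mp hxP with ⟨e, he, hev⟩ | ⟨w', hw', h1⟩
      · have h2 := hx' e he
        rw [hev] at h2
        exact side_not h.tree hw h2 (SimpleGraph.Reachable.refl _)
      · by_cases hww : w' = w
        · subst hww
          exact hnot v w' hw x hx h1
        · obtain ⟨⟨e, he, he2⟩, -⟩ := h1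
          exact side_disj h.tree hw' hw hww he2 (hx' e he)
    -- the sides which belong to a set `Z`
    set DZ : Fin s → Finset ι :=
      fun i => D.filter (fun w => ∀ x ∈ mid src dst T leaf v w, x ∈ Z i) with hDZ
    have key : ∀ i, ∀ U : Finset ι, U ⊆ DZ i →
        ((U.biUnion (fun w => I v w)) ∩ N).card ≤ (Z i).card - 2 := by
      intro i U
      induction U using Finset.induction_on with
      | empty => intro _; simp
      | insert w U hw ih =>
        intro hU
        have h1 := ih (fun x hx => hU (mem_insert_of_mem hx))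
        have hwD : w ∈ DZ i := hU (mem_insert_self _ _)
        have hZi := z1 i
        have hvw : T.Adj v w := (memD w).mp (mem_filter.mp hwD).1
        have h2 : (I v w ∩ N).card ≤ 1 := hv w hvw
        set J := (insert w U).biUnion (fun w => I v w) with hJ
        have h3 : (J ∩ N).card ≤ 2 := by
          have : J ∩ N ⊆ (I v w ∩ N) ∪ ((U.biUnion (fun w => I v w)) ∩ N) := by
            intro x hx
            rw [mem_inter, hJ, mem_biUnion] at hx
            obtain ⟨⟨w', hw', hx1⟩, hx3⟩ := hx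
            rcases mem_insert.mp hw' with rfl | hw'
            · exact mem_union_left _ (mem_inter.mpr ⟨hx1, hx3⟩)
            · exact mem_union_right _ (mem_inter.mpr ⟨mem_biUnion.mpr ⟨w', hw', hx1⟩, hx3⟩)
          have := card_le_card this
          have := card_union_le (I v w ∩ N) ((U.biUnion (fun w => I v w)) ∩ N)
          omega
        have hZP : (Z i ∩ P).card ≤ (Z i).card := card_le_card inter_subset_left
        have hZc : (Z i ∩ P).card ≤ 3 := hZP.trans (z1 i)
        rcases hsep (Z i ∩ P) J hZc (fun e he x hx => by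
            have h5 : ∃ w' ∈ insert w U, src e ∈ I v w' ∨ dst e ∈ I v w' := by
              rcases he with h6 | h6
              · obtain ⟨w', hw', h7⟩ := mem_biUnion.mp h6
                exact ⟨w', hw', Or.inl h7⟩
              · obtain ⟨w', hw', h7⟩ := mem_biUnion.mp h6
                exact ⟨w', hw', Or.inr h7⟩
            obtain ⟨w', hw', h7⟩ := h5
            have hw'D := mem_filter.mp (hU hw')
            have hvw' := (memD w').mp hw'D.1
            rcases hatt v w' hvw' e h7 x hx with h8 | h8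
            · exact Or.inl (mem_biUnion.mpr ⟨w', hw', h8⟩)
            · exact Or.inr (mem_inter.mpr ⟨hw'D.2 x h8, (memP x).mpr (Or.inr ⟨w', hvw', h8⟩)⟩))
          with h4 | h4
        · omega
        · exfalso
          have h5 : N ⊆ (J ∩ N) ∪ ((Z i ∩ P) ∪ ((J ∪ (Z i ∩ P))ᶜ ∩ N)) := by
            intro x hx
            by_cases h6 : x ∈ J
            · exact mem_union_left _ (mem_inter.mpr ⟨h6, hx⟩)
            · by_cases h7 : x ∈ Z i ∩ P
              · exact mem_union_right _ (mem_union_left _ h7)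
              · refine mem_union_right _ (mem_union_right _ (mem_inter.mpr ⟨?_, hx⟩))
                rw [mem_compl, mem_union, not_or]
                exact ⟨h6, h7⟩
          have h6 := card_le_card h5
          have h7 := card_union_le (J ∩ N) ((Z i ∩ P) ∪ ((J ∪ (Z i ∩ P))ᶜ ∩ N))
          have h8 := card_union_le (Z i ∩ P) ((J ∪ (Z i ∩ P))ᶜ ∩ N)
          omega
    have hPc : P.card = (part src dst T leaf v).ncard := by
      rw [Set.ncard_eq_toFinset_card']
      congr 1
      ext x
      simp [hP]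
    have hsub : N ⊆ P ∪ univ.biUnion (fun i => ((DZ i).biUnion (fun w => I v w)) ∩ N) := by
      intro x hx
      obtain ⟨e, _, he⟩ := (mem_filter.mp hx).2
      by_cases hev : leaf e = v
      · exact mem_union_left _ ((memP x).mpr (Or.inl ⟨e, he, hev⟩))
      · obtain ⟨w, hw, hew⟩ := side_first h.tree hev
        by_cases h1 : x ∈ I v w
        · obtain ⟨i, hZ2⟩ := z2 w hw
          refine mem_union_right _ (mem_biUnion.mpr ⟨i, mem_univ _, mem_inter.mpr ⟨mem_biUnion.mpr
            ⟨w, mem_filter.mpr ⟨(memD w).mpr hw, hZ2⟩, h1⟩, hx⟩⟩)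
        · rw [memI] at h1
          push Not at h1
          obtain ⟨d, hd, hd2⟩ := h1
          refine mem_union_left _ ((memP x).mpr (Or.inr ⟨w, hw, ?_⟩))
          exact ⟨⟨e, he, hew⟩, d, hd, (side_or h.tree (leaf d)).resolve_left hd2⟩
    have h1 : (univ.biUnion (fun i => ((DZ i).biUnion (fun w => I v w)) ∩ N)).card ≤
        ∑ i, ((Z i).card - 2) :=
      card_biUnion_le.trans (sum_le_sum fun i _ => key i (DZ i) (Finset.Subset.refl _))
    have h2 := card_le_card hsub
    have h3 := card_union_le P (univ.biUnion (fun i => ((DZ i).biUnion (fun w => I v w)) ∩ N))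
    omega
  · refine R890.FF.cover9 src dst univ X (n1_of_min hM) ?_ x1
    intro e _ hne
    by_cases hev : leaf e = v
    · exact x3 e hev hne
    · obtain ⟨w, hw, hew⟩ := side_first h.tree hev
      by_contra hno
      rw [not_or] at hno
      have hend : ∀ x, (src e = x ∨ dst e = x) → x ∉ X → x ∈ I v w ∩ N := by
        intro x hx hxX
        refine mem_inter.mpr ⟨?_, mem_filter.mpr ⟨mem_univ _, e, hne, hx⟩⟩
        rw [memI]
        intro d hd
        by_contra hd2
        exact hxX ((x2 w hw).2 x ⟨⟨e, hx, hew⟩, d, hd, (side_or h.tree (leaf d)).resolve_left hd2⟩)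
      have h1 := hend _ (Or.inl rfl) hno.1
      have h2 := hend _ (Or.inr rfl) hno.2
      exact hne (card_le_one.mp (hv w hw) _ h1 _ h2)

end Pool.Agent.Zk83.AT
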