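import Pool.Agent.Zk83.AT.Main
import Pool.Agent.R129.Hfp.Ears
import Pool.Agent.R890.FF.HfpFin

set_option autoImplicit false
set_option linter.unusedSectionVars false

/-!
# The final forms
-/

namespace Pool.Agent.Zk83.AT

open Finset
open Pool.Agent.TH462.T4 (crs mem_crs nl mem_nl)
open Pool.Agent.TH676.T4 (Nis)
open Pool.Agent.TH497.T4 (Closed Conn crs_compl)
open Pool.Agent.H160R2.HF (OrGraph)
open Pool.Agent.H179R3.HF (Ok)

variable {V E : Type} [Fintype V] [DecidableEq V] [Fintype E] [DecidableEq E]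

/-- `Pr` in terms of `1/2`-flow-pairs -/
theorem pr_iff {G : OrGraph V E} : Pr Aok G.t G.h ↔
    ((∃ φ₂ φ₄ : E → ℤ, G.IsHalfFlowPair φ₂ φ₄) ∧
    (∀ e a b, Ok a b → ∃ φ₂ φ₄ : E → ℤ, G.IsHalfFlowPair φ₂ φ₄ ∧ φ₂ e = a ∧ φ₄ e = b) ∧
    ∀ w, (G.cut {w}).card = 3 → ∀ α β : E → ℤ,
      (∑ e ∈ G.cut {w}, (if G.t e = w then α e else - α e) = 0 ∧
      ∑ e ∈ G.cut {w}, (if G.t e = w then β e else - β e) = 0 ∧
      ∀ e ∈ G.cut {w}, Ok (α e) (β e)) →
      ∃ φ₂ φ₄ : E → ℤ, G.IsHalfFlowPair φ₂ φ₄ ∧ ∀ e ∈ G.cut {w}, φ₂ e = α e ∧ φ₄ e = β e) := by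
  constructor
  · intro h
    have hp := hp_of_pr h
    refine ⟨hp.1, fun e a b hab => ?_, fun w hw α β ⟨h1, h2, h3⟩ => hp.2 w hw α β h1 h2 h3⟩
    obtain ⟨f, hf, hfe⟩ := h.fe' e (a, b) hab
    exact ⟨_, _, af_iff.mp hf, congrArg Prod.fst hfe, congrArg Prod.snd hfe⟩
  · rintro ⟨h1, h2, h3⟩
    refine pr_of_hp ⟨h1, fun w hw α β g1 g2 g3 => h3 w hw α β ⟨g1, g2, g3⟩⟩ ?_
    intro e x _ hx
    obtain ⟨φ₂, φ₄, g1, g2, g3⟩ := h2 e x.1 x.2 hx
    exact ⟨fun e => (φ₂ e, φ₄ e), af_iff.mpr g1, Prod.ext g2 g3⟩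

/-- every edge cut with at least two vertices on both sides has at least four edges -/
theorem cut4 {s t : E → V} (h : MinH Aok s t) {Y : Finset V} {x x2 y y2 : V} (hx : x ∈ Y)
    (hx2 : x2 ∈ Y) (hxx : x ≠ x2) (hy : y ∉ Y) (hy2 : y2 ∉ Y) (hyy : y ≠ y2)
    (nx : Nis s t x) (nx2 : Nis s t x2) (ny : Nis s t y) (ny2 : Nis s t y2) :
    4 ≤ (crs s t Y).card := by
  classical
  by_contra hlt
  have h3 : (crs s t Y).card ≤ 3 := by omega
  -- one side has at most four vertices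
  have side : ∀ Y : Finset V, (crs s t Y).card ≤ 3 → ∀ y y2, y ∉ Y → y2 ∉ Y → y ≠ y2 →
      Nis s t y → Nis s t y2 → (Y ∩ univ.filter (fun v => Nis s t v)).card ≤ 4 := by
    intro Y h3 y y2 hy hy2 hyy ny ny2
    by_contra h5
    set Z : Finset V := (crs s t Y).image (fun e => if s e ∈ Y then s e else t e) with hZ
    have hZ3 : Z.card ≤ 3 := card_image_le.trans h3
    have h6 : 2 ≤ ((Y ∩ univ.filter (fun v => Nis s t v)) \ Z).card := by
      have := le_card_sdiff Z (Y ∩ univ.filter (fun v => Nis s t v))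
      omega
    obtain ⟨a, ha, b, hb, hab⟩ := one_lt_card.mp (show 1 < _ from h6)
    rw [mem_sdiff, mem_inter, mem_filter] at ha hb
    refine sep3 Aok_neg h (Z := Z) (I := Yᶜ) ?_ hZ3 (mem_compl.mpr hy) ny (mem_compl.mpr hy2) ny2
      hyy (fun h7 => (mem_compl.mp h7) ha.1.1) ha.2 ha.1.2.2
      (fun h7 => (mem_compl.mp h7) hb.1.1) hb.2 hb.1.2.2 hab
    intro e he
    rw [mem_compl, mem_compl] at he
    have key : ∀ v, (s e = v ∨ t e = v) → v ∈ Yᶜ ∪ Z := by
      intro v hv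
      by_cases hvY : v ∈ Y
      · refine mem_union_right _ (mem_image.mpr ⟨e, ?_, ?_⟩)
        · rw [mem_crs]
          rcases hv with rfl | rfl
          · tauto
          · tauto
        · rcases hv with rfl | rfl
          · exact if_pos hvY
          · have : s e ∉ Y := by tauto
            exact if_neg this
      · exact mem_union_left _ (mem_compl.mpr hvY)
    exact ⟨key _ (Or.inl rfl), key _ (Or.inr rfl)⟩
  have c1 := side Y h3 y y2 hy hy2 hyy ny ny2
  have c2 := side Yᶜ (by rw [crs_compl]; exact h3) x x2 (by simpa using hx) (by simpa using hx2)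
    hxx nx nx2
  have c3 := odd18 h
  have c4 : TH362.TF.odd s t univ ⊆ (Y ∩ univ.filter (fun v => Nis s t v)) ∪
      (Yᶜ ∩ univ.filter (fun v => Nis s t v)) := by
    intro v hv
    have hn : Nis s t v := by
      by_contra hno
      have h3 : ∀ e, s e = t e ∨ (s e ≠ v ∧ t e ≠ v) := by
        intro e
        by_contra h4
        push Not at h4
        refine hno ⟨e, h4.1, ?_⟩
        by_cases h5 : s e = v
        · exact Or.inl h5
        · exact Or.inr (h4.2 h5)
      rw [TH362.TF.odd, mem_filter] at hv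
      have h4 : Even (TH362.TF.deg s t univ v) := by
        unfold TH362.TF.deg
        refine Finset.even_sum _ fun e _ => ?_
        rcases h3 e with h5 | ⟨h5, h6⟩
        · rw [h5]
          exact Even.add_self _
        · rw [if_neg h5, if_neg h6]
          exact Even.add_self _
      exact (Nat.not_even_iff_odd.mpr hv.2) h4
    by_cases hvY : v ∈ Y
    · exact mem_union_left _ (mem_inter.mpr ⟨hvY, mem_filter.mpr ⟨mem_univ _, hn⟩⟩)
    · exact mem_union_right _ (mem_inter.mpr ⟨mem_compl.mpr hvY, mem_filter.mpr ⟨mem_univ _, hn⟩⟩)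
  have c5 := (card_le_card c4).trans (card_union_le _ _)
  omega

theorem br_of {G : OrGraph V E} (hB : G.Bridgeless) : ∀ Y : Finset V, (crs G.t G.h Y).card ≠ 1 :=
  G.cut_card_ne_one hB

theorem bridgeless_of_br {s t : E → V} (h : ∀ Y : Finset V, (crs s t Y).card ≠ 1) :
    (⟨s, t⟩ : OrGraph V E).Bridgeless := R129.Hfp.bridgeless_of h

end Pool.Agent.Zk83.AT
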