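import Pool.Agent.Zk83.AT.Sep3
import Pool.Agent.N393.C13.Hfp

set_option autoImplicit false
set_option linter.unusedSectionVars false

/-!
# `1/2`-flow-pairs with prescribed values at an edge
-/

namespace Pool.Agent.Zk83.AT

open Finset
open Pool.Agent.TH462.T4 (crs mem_crs nl mem_nl)
open Pool.Agent.H160R2.HF (OrGraph)
open Pool.Agent.H179R3.HF (Ok pair_iff_ok)
open Pool.Agent.R129.Hfp (NzK FlexAt)
open Pool.Agent.N393.C13.Hf (Hp)

section
variable {V E Γ : Type} [Fintype V] [DecidableEq V] [Fintype E] [DecidableEq E] [AddCommGroup Γ]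

/-- a digon is inserted in the edge `e` -/
def ds (s : E → V) : E ⊕ Fin 3 → V ⊕ Bool :=
  Sum.elim (fun d => Sum.inl (s d)) ![Sum.inr false, Sum.inr false, Sum.inr true]

/-- a digon is inserted in the edge `e` -/
def dt (t : E → V) (e : E) : E ⊕ Fin 3 → V ⊕ Bool :=
  Sum.elim (fun d => if d = e then Sum.inr false else Sum.inl (t d))
    ![Sum.inr true, Sum.inr true, Sum.inl (t e)]

theorem dg_l (s t : E → V) (e : E) (f : E ⊕ Fin 3 → Γ) (v : V) :
    bd (ds s) (dt t e) f (Sum.inl v) = bd s t (fun d => f (Sum.inl d)) v +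
      (if t e = v then f (Sum.inl e) - f (Sum.inr 2) else 0) := by
  unfold bd ds dt
  rw [Fintype.sum_sum_type, Fin.sum_univ_three]
  have h1 : ∀ d : E, (if (Sum.elim (fun d => if d = e then (Sum.inr false : V ⊕ Bool) else
      Sum.inl (t d)) ![Sum.inr true, Sum.inr true, Sum.inl (t e)] (Sum.inl d)) = Sum.inl v then
      f (Sum.inl d) else 0) = (if t d = v then f (Sum.inl d) else 0) -
      (if d = e then (if t e = v then f (Sum.inl e) else 0) else 0) := by
    intro d
    rw [Sum.elim_inl]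
    by_cases hd : d = e
    · subst hd
      simp
    · simp [hd]
  simp only [h1]
  rw [sum_sub_distrib, sum_sub_distrib, sum_sub_distrib, sum_ite_eq' univ e, if_pos (mem_univ e)]
  simp
  split_ifs <;> abel

theorem dg_p (s t : E → V) (e : E) (f : E ⊕ Fin 3 → Γ) :
    bd (ds s) (dt t e) f (Sum.inr false) =
      f (Sum.inr 0) + f (Sum.inr 1) - f (Sum.inl e) := by
  unfold bd ds dt
  rw [Fintype.sum_sum_type, Fin.sum_univ_three]
  have h1 : ∀ d : E, (if (Sum.elim (fun d => if d = e then (Sum.inr false : V ⊕ Bool) else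
      Sum.inl (t d)) ![Sum.inr true, Sum.inr true, Sum.inl (t e)] (Sum.inl d)) = Sum.inr false then
      f (Sum.inl d) else 0) = (if d = e then f (Sum.inl e) else 0) := by
    intro d
    rw [Sum.elim_inl]
    by_cases hd : d = e
    · subst hd
      simp
    · simp [hd]
  simp only [h1]
  rw [sum_sub_distrib, sum_ite_eq' univ e, if_pos (mem_univ e)]
  simp
  abel

theorem dg_q (s t : E → V) (e : E) (f : E ⊕ Fin 3 → Γ) :
    bd (ds s) (dt t e) f (Sum.inr true) =
      f (Sum.inr 2) - f (Sum.inr 0) - f (Sum.inr 1) := by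
  unfold bd ds dt
  rw [Fintype.sum_sum_type, Fin.sum_univ_three]
  have h1 : ∀ d : E, (if (Sum.elim (fun d => if d = e then (Sum.inr false : V ⊕ Bool) else
      Sum.inl (t d)) ![Sum.inr true, Sum.inr true, Sum.inl (t e)] (Sum.inl d)) = Sum.inr true then
      f (Sum.inl d) else 0) = 0 := by
    intro d
    rw [Sum.elim_inl]
    by_cases hd : d = e
    · subst hd
      simp
    · simp [hd]
  simp only [h1]
  simp
  abel

theorem dg_cut (s t : E → V) (e : E) :
    crs (ds s) (dt t e) {Sum.inr false} = {Sum.inl e, Sum.inr 0, Sum.inr 1} := by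
  ext d
  rw [mem_crs1, mem_insert, mem_insert, mem_singleton]
  rcases d with d | d
  · by_cases hd : d = e
    · simp [ds, dt, hd]
    · simp [ds, dt, hd]
  · fin_cases d <;> simp [ds, dt]

end

section
variable {V E : Type} [Fintype V] [DecidableEq V] [Fintype E] [DecidableEq E]

/-- the admissible values -/
def Aok (x : ℤ × ℤ) : Prop := Ok x.1 x.2

theorem Aok_neg (x : ℤ × ℤ) (h : Aok x) : Aok (-x) := by
  obtain ⟨h1, h2, h3⟩ := h
  refine ⟨by simpa using h1, by simpa using h2, fun h4 => ?_⟩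
  have h5 := h3 (by simpa using h4)
  simpa using h5

theorem isFlow_iff {s t : E → V} {φ : E → ℤ} :
    (⟨s, t⟩ : OrGraph V E).IsFlow φ ↔ ∀ v, bd s t φ v = 0 := by
  unfold OrGraph.IsFlow bd
  refine forall_congr' fun v => ?_
  rw [sum_sub_distrib, sum_filter, sum_filter, sub_eq_zero]

theorem bd_pair (s t : E → V) (f : E → ℤ × ℤ) (v : V) :
    bd s t f v = (bd s t (fun e => (f e).1) v, bd s t (fun e => (f e).2) v) := by
  unfold bd
  ext
  · rw [Prod.fst_sum]
    refine sum_congr rfl fun e _ => ?_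
    split_ifs <;> simp
  · rw [Prod.snd_sum]
    refine sum_congr rfl fun e _ => ?_
    split_ifs <;> simp

theorem af_iff {s t : E → V} {f : E → ℤ × ℤ} : AF Aok s t f ↔
    (⟨s, t⟩ : OrGraph V E).IsHalfFlowPair (fun e => (f e).1) (fun e => (f e).2) := by
  rw [pair_iff_ok, isFlow_iff, isFlow_iff]
  constructor
  · rintro ⟨h1, h2⟩
    refine ⟨fun v => ?_, fun v => ?_, h2⟩
    · have := h1 v
      rw [bd_pair] at this
      exact congrArg Prod.fst this
    · have := h1 v
      rw [bd_pair] at this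
      exact congrArg Prod.snd this
  · rintro ⟨h1, h2, h3⟩
    refine ⟨fun v => ?_, h3⟩
    rw [bd_pair, h1 v, h2 v]
    rfl

theorem flex_sum (s t : E → V) (w : V) (γ : E → ℤ) :
    ∑ e ∈ (⟨s, t⟩ : OrGraph V E).cut {w}, (if s e = w then γ e else - γ e) = bd s t γ w :=
  (bd_crs s t γ w).symm

/-- extension at a vertex in the two languages -/
theorem fv_of_flex {s t : E → V} {w : V} (h : FlexAt (⟨s, t⟩ : OrGraph V E) w)
    (hw : (crs s t {w}).card = 3) (g : E → ℤ × ℤ) (hg : bd s t g w = 0)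
    (hgA : ∀ e ∈ crs s t {w}, Aok (g e)) : ∃ f, AF Aok s t f ∧ ∀ e ∈ crs s t {w}, f e = g e := by
  rw [bd_pair] at hg
  obtain ⟨φ₂, φ₄, h1, h2⟩ := h hw (fun e => (g e).1) (fun e => (g e).2)
    ((flex_sum s t w _).trans (congrArg Prod.fst hg))
    ((flex_sum s t w _).trans (congrArg Prod.snd hg)) hgA
  refine ⟨fun e => (φ₂ e, φ₄ e), af_iff.mpr h1, fun e he => ?_⟩
  obtain ⟨h3, h4⟩ := h2 e he
  exact Prod.ext h3 h4

theorem hp_of_pr {s t : E → V} (h : Pr Aok s t) : Hp s t := by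
  constructor
  · obtain ⟨f, hf⟩ := h.ex
    exact ⟨_, _, af_iff.mp hf⟩
  · intro w hw α β hα hβ hok
    obtain ⟨f, h1, h2⟩ := h.fv w hw (fun e => (α e, β e)) (by
      rw [bd_pair]
      exact Prod.ext ((flex_sum s t w α).symm.trans hα) ((flex_sum s t w β).symm.trans hβ)) hok
    refine ⟨_, _, af_iff.mp h1, fun e he => ?_⟩
    have := h2 e he
    exact ⟨congrArg Prod.fst this, congrArg Prod.snd this⟩

/-- every admissible value is taken at every proper edge -/
def Fe (s t : E → V) : Prop :=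
  ∀ e x, s e ≠ t e → Aok x → ∃ f, AF Aok s t f ∧ f e = x

theorem pr_of_hp {s t : E → V} (h : Hp s t) (h' : Fe s t) : Pr Aok s t := by
  refine ⟨?_, fun w hw g hg hgA => fv_of_flex (h.2 w) hw g hg hgA, h'⟩
  obtain ⟨⟨φ₂, φ₄, h1⟩, _⟩ := h
  exact ⟨fun e => (φ₂ e, φ₄ e), af_iff.mpr h1⟩

/-- an admissible value is the sum of two admissible values -/
theorem split_ok (x : ℤ × ℤ) (hx : Aok x) : ∃ y z : ℤ × ℤ, Aok y ∧ Aok z ∧ y + z = x := by
  obtain ⟨a, b⟩ := x
  obtain ⟨h1, h2, h3⟩ := hx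
  simp only at h1 h2 h3
  rw [abs_le] at h1 h2
  have ha : a = -1 ∨ a = 0 ∨ a = 1 := by omega
  have hb : b = -3 ∨ b = -2 ∨ b = -1 ∨ b = 0 ∨ b = 1 ∨ b = 2 ∨ b = 3 := by omega
  have hd : ∀ y : ℤ × ℤ, (|y.1| ≤ 1 ∧ |y.2| ≤ 3 ∧ (y.1 = 0 → 2 ≤ |y.2|)) → Aok y := fun y h => h
  rcases ha with rfl | rfl | rfl
  · rcases hb with rfl | rfl | rfl | rfl | rfl | rfl | rfl
    · exact ⟨(0, -2), (-1, -1), hd _ (by decide), hd _ (by decide), by decide⟩
    · exact ⟨(0, -2), (-1, 0), hd _ (by decide), hd _ (by decide), by decide⟩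
    · exact ⟨(0, -2), (-1, 1), hd _ (by decide), hd _ (by decide), by decide⟩
    · exact ⟨(0, -2), (-1, 2), hd _ (by decide), hd _ (by decide), by decide⟩
    · exact ⟨(0, -2), (-1, 3), hd _ (by decide), hd _ (by decide), by decide⟩
    · exact ⟨(0, 2), (-1, 0), hd _ (by decide), hd _ (by decide), by decide⟩
    · exact ⟨(0, 2), (-1, 1), hd _ (by decide), hd _ (by decide), by decide⟩
  · rcases hb with rfl | rfl | rfl | rfl | rfl | rfl | rfl
    · exact ⟨(1, -1), (-1, -2), hd _ (by decide), hd _ (by decide), by decide⟩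
    · exact ⟨(1, -1), (-1, -1), hd _ (by decide), hd _ (by decide), by decide⟩
    · exact absurd (h3 rfl) (by decide)
    · exact absurd (h3 rfl) (by decide)
    · exact absurd (h3 rfl) (by decide)
    · exact ⟨(1, 1), (-1, 1), hd _ (by decide), hd _ (by decide), by decide⟩
    · exact ⟨(1, 1), (-1, 2), hd _ (by decide), hd _ (by decide), by decide⟩
  · rcases hb with rfl | rfl | rfl | rfl | rfl | rfl | rfl
    · exact ⟨(0, -2), (1, -1), hd _ (by decide), hd _ (by decide), by decide⟩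
    · exact ⟨(0, -2), (1, 0), hd _ (by decide), hd _ (by decide), by decide⟩
    · exact ⟨(0, -2), (1, 1), hd _ (by decide), hd _ (by decide), by decide⟩
    · exact ⟨(0, -2), (1, 2), hd _ (by decide), hd _ (by decide), by decide⟩
    · exact ⟨(0, -2), (1, 3), hd _ (by decide), hd _ (by decide), by decide⟩
    · exact ⟨(0, 2), (1, 0), hd _ (by decide), hd _ (by decide), by decide⟩
    · exact ⟨(0, 2), (1, 1), hd _ (by decide), hd _ (by decide), by decide⟩

theorem bd_K {V' E' : Type} [Fintype V'] [DecidableEq V'] [Fintype E'] [DecidableEq E']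
    (s t : E' → V') (f : E' → ZMod 2 × ZMod 2) (v : V') :
    TH499.NF.bd (⟨s, t⟩ : OrGraph V' E') f v = bd s t f v := by
  rw [TH499.NF.bd_eq]
  unfold bd
  refine sum_congr rfl fun e _ => ?_
  have h : ∀ x : ZMod 2 × ZMod 2, -x = x := by decide
  rw [sub_eq_add_neg, h]

/-- values at an edge of a graph with a nowhere-zero flow over the Klein group -/
theorem fe_of_nz {s t : E → V} (h : NzK (⟨s, t⟩ : OrGraph V E)) : Fe s t := by
  intro e x _ hx
  obtain ⟨f, hf1, hf2⟩ := h
  obtain ⟨k1, k2, hk1, hk2, hk⟩ : ∃ k1 k2 : ZMod 2 × ZMod 2, k1 ≠ 0 ∧ k2 ≠ 0 ∧ k1 + k2 = f e := by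
    have key : ∀ k : ZMod 2 × ZMod 2, k ≠ 0 →
        ∃ k1 k2 : ZMod 2 × ZMod 2, k1 ≠ 0 ∧ k2 ≠ 0 ∧ k1 + k2 = k := by decide
    exact key _ (hf1 e)
  have hN : NzK (⟨ds s, dt t e⟩ : OrGraph (V ⊕ Bool) (E ⊕ Fin 3)) := by
    refine ⟨Sum.elim f ![k1, k2, f e], ?_, ?_⟩
    · rintro (d | d)
      · exact hf1 d
      · fin_cases d
        · exact hk1
        · exact hk2
        · exact hf1 e
    · intro v
      rw [bd_K]
      rcases v with v | v
      · rw [dg_l]
        have h1 := hf2 v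
        rw [bd_K] at h1
        simp [h1]
      · cases v
        · rw [dg_p]
          simp [hk]
        · rw [dg_q]
          simp only [Sum.elim_inr, Matrix.cons_val_zero, Matrix.cons_val_one]
          have h2 : (![k1, k2, f e] : Fin 3 → ZMod 2 × ZMod 2) 2 = f e := rfl
          rw [h2, ← hk]
          abel
  obtain ⟨y, z, hy, hz, hyz⟩ := split_ok x hx
  have hne : (Sum.inl e : E ⊕ Fin 3) ∉ ({Sum.inr 0, Sum.inr 1} : Finset (E ⊕ Fin 3)) := by simp
  have hne2 : (Sum.inr 0 : E ⊕ Fin 3) ≠ Sum.inr 1 := by simp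
  obtain ⟨g, hg, hgx⟩ := fv_of_flex (R129.Hfp.flex_of_nz hN (Sum.inr false)) (by
    rw [dg_cut, card_insert_of_notMem hne, card_pair hne2])
    (Sum.elim (fun _ => x) ![y, z, 0]) (by
      rw [dg_p]
      simp [hyz]) (by
      intro d hd
      rw [dg_cut, mem_insert, mem_insert, mem_singleton] at hd
      rcases hd with rfl | rfl | rfl
      · exact hx
      · exact hy
      · exact hz)
  refine ⟨fun d => g (Sum.inl d), ⟨fun v => ?_, fun d => hg.2 _⟩, ?_⟩
  · have h1 := hg.1 (Sum.inl v)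
    have h2 := hg.1 (Sum.inr false)
    have h3 := hg.1 (Sum.inr true)
    rw [dg_l] at h1
    rw [dg_p] at h2
    rw [dg_q] at h3
    have h4 : g (Sum.inl e) - g (Sum.inr 2) = 0 := by
      have h5 : g (Sum.inl e) - g (Sum.inr 2) =
          -((g (Sum.inr 0) + g (Sum.inr 1) - g (Sum.inl e)) +
            (g (Sum.inr 2) - g (Sum.inr 0) - g (Sum.inr 1))) := by abel
      rw [h5, h2, h3]
      simp
    rw [h4, ite_self, add_zero] at h1
    exact h1
  · have := hgx (Sum.inl e) (by rw [dg_cut]; simp)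
    simpa using this

end

end Pool.Agent.Zk83.AT
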