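import Pool.Agent.Zk83.AT.Hf

set_option autoImplicit false
set_option linter.unusedSectionVars false

/-!
# Minimal graphs for the extension of `1/2`-flow-pairs have no 4-flow and no Petersen quotient
-/

namespace Pool.Agent.Zk83.AT

open Finset Relation
open Pool.Agent.TH462.T4 (crs mem_crs nl mem_nl)
open Pool.Agent.TH676.T4 (Nis)
open Pool.Agent.TH497.T4 (Conn Closed)
open Pool.Agent.H160R2.HF (OrGraph)
open Pool.Agent.H179R3.HF (Ok pair_iff_ok)
open Pool.Agent.R129.Hfp (NzK FlexAt)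
open Pool.Agent.N393.C13.Hf
open Pool.Agent.R140.PK
open Pool.Agent.TH362.TF (N1 NZ PQ nb padj)

variable {V E : Type} [Fintype V] [DecidableEq V] [Fintype E] [DecidableEq E]

theorem n1_of_br {s t : E → V} (h : ∀ Y : Finset V, (crs s t Y).card ≠ 1) : N1 s t univ := by
  intro x hx
  apply h (univ.filter (fun v => x v = true))
  rw [← hx]
  congr 1
  ext e
  rw [mem_crs]
  simp only [mem_filter, mem_univ, true_and, TH362.TF.cut]
  cases x (s e) <;> cases x (t e) <;> simp

theorem nzk_of {s t : E → V} (h : NZ s t univ) : NzK (⟨s, t⟩ : OrGraph V E) := by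
  obtain ⟨φ, h1, h2⟩ := h
  refine ⟨φ, fun e => h1 e (mem_univ _), fun x => ?_⟩
  rw [TH499.NF.bd_eq]
  exact h2 x

theorem pr_of_nz {s t : E → V} (hn : N1 s t univ) (h : NZ s t univ) : Pr Aok s t :=
  pr_of_hp (hp_of_nz hn h) (fe_of_nz (nzk_of h))

/-- sums along cuts with three edges -/
theorem pr_sum {s t : E → V} (A1 A2 : Finset V) (a1 a2 : V) (h1 : a1 ∈ A1) (h2 : a2 ∈ A2)
    (hd : Disjoint A1 A2) (h3 : (cu s t A1).card = 3) (hc : cu s t A2 = cu s t A1)
    (c1 : Pr Aok (ctr A1 a1 s) (ctr A1 a1 t)) (c2 : Pr Aok (ctr A2 a2 s) (ctr A2 a2 t)) :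
    Pr Aok s t := by
  have key : ∀ (A1 A2 : Finset V) (a1 a2 : V), a1 ∈ A1 → a2 ∈ A2 → Disjoint A1 A2 →
      (cu s t A1).card = 3 → cu s t A2 = cu s t A1 → Pr Aok (ctr A1 a1 s) (ctr A1 a1 t) →
      Pr Aok (ctr A2 a2 s) (ctr A2 a2 t) → ∀ e x, ¬ (s e ∈ A1 ∧ t e ∈ A1) → Aok x →
      ∃ f, AF Aok s t f ∧ f e = x := by
    intro A1 A2 a1 a2 h1 h2 hd h3 hc c1 c2 e x he hx
    obtain ⟨f, hf, hfe⟩ := c1.fe' e x hx
    obtain ⟨φ₂, φ₄, h5, h6⟩ := glue2 h1 h2 hd h3 hc (af_iff.mp hf) ((hp_of_pr c2).2 a2)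
    refine ⟨fun e => (φ₂ e, φ₄ e), af_iff.mpr h5, ?_⟩
    obtain ⟨h7, h8⟩ := h6 e he
    rw [← hfe]
    exact Prod.ext h7 h8
  refine pr_of_hp (hp_sum A1 A2 a1 a2 h1 h2 hd h3 hc (hp_of_pr c1) (hp_of_pr c2)) ?_
  intro e x _ hx
  by_cases he : s e ∈ A1 ∧ t e ∈ A1
  · refine key A2 A1 a2 a1 h2 h1 hd.symm (by rw [hc]; exact h3) hc.symm c2 c1 e x ?_ hx
    rintro ⟨h4, _⟩
    exact disjoint_left.mp hd he.1 h4
  · exact key A1 A2 a1 a2 h1 h2 hd h3 hc c1 c2 e x he hx

theorem connS_conn {s t : E → V} {A : Finset V} (h : ConnS s t univ (fun v => v ∈ A)) :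
    Conn s t A := by
  intro Y hY y hy y' hy'
  have h1 := h y hy y' hy'
  clear hy'
  induction h1 with
  | refl => exact Iff.rfl
  | tail h2 h3 ih =>
    refine ih.trans ?_
    obtain ⟨⟨e, _, he⟩, hp, hq⟩ := h3
    rcases he with ⟨a, b⟩ | ⟨a, b⟩
    · have := hY e (by rw [a]; exact hp) (by rw [b]; exact hq)
      rw [a, b] at this
      exact this
    · have := hY e (by rw [a]; exact hq) (by rw [b]; exact hp)
      rw [a, b] at this
      exact this.symm

theorem cK_ctr (K : Finset V) (k : V) (s : E → V) : cK K k s = ctr K k s := rfl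

/-- values at an edge with an end of degree three -/
theorem fe_of_fv {s t : E → V} (h : Hp s t) {w : V} (hw : (crs s t {w}).card = 3) {e : E}
    (he : e ∈ crs s t {w}) {x : ℤ × ℤ} (hx : Aok x) : ∃ f, AF Aok s t f ∧ f e = x := by
  have hc2 : ((crs s t {w}).erase e).card = 2 := by rw [card_erase_of_mem he, hw]
  obtain ⟨d1, d2, hd, hE⟩ := card_eq_two.mp hc2
  have m1 : d1 ∈ (crs s t {w}).erase e := by rw [hE]; simp
  have m2 : d2 ∈ (crs s t {w}).erase e := by rw [hE]; simp
  have n1 := (mem_erase.mp m1).1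
  have n2 := (mem_erase.mp m2).1
  have hc : crs s t {w} = {e, d1, d2} := by
    rw [← insert_erase he, hE]
  -- the outgoing values
  obtain ⟨y, z, hy, hz, hyz⟩ := split_ok (- sg s w e x) (Aok_neg _ (sg_A Aok_neg s w e hx))
  set g : E → ℤ × ℤ := fun d => if d = e then x else if d = d1 then sg s w d1 y else sg s w d2 z
    with hg
  have g0 : g e = x := by rw [hg]; simp
  have g1 : g d1 = sg s w d1 y := by
    rw [hg]; simp only [if_neg n1, if_true]
  have g2 : g d2 = sg s w d2 z := by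
    rw [hg]; simp only [if_neg n2, if_neg hd.symm]
  obtain ⟨f, hf, hfg⟩ := fv_of_flex (h.2 w) hw g (by
    have hs : ∀ d, (if s d = w then g d else - g d) = sg s w d (g d) := fun d => rfl
    rw [bd_crs, hc, sum_insert (by simp [n1.symm, n2.symm]), sum_pair hd, hs, hs, hs, g0, g1, g2,
      sg_sg, sg_sg, hyz, add_neg_cancel]) (by
    intro d hd'
    rw [hc, mem_insert, mem_insert, mem_singleton] at hd'
    rcases hd' with rfl | rfl | rfl
    · rw [g0]; exact hx
    · rw [g1]; exact sg_A Aok_neg _ _ _ hy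
    · rw [g2]; exact sg_A Aok_neg _ _ _ hz)
  exact ⟨f, hf, by rw [hfg e he, g0]⟩

/-- **Minimal graphs have no flow over the Klein group and no Petersen quotient.** -/
theorem no_nzpq {s t : E → V} (h : MinH Aok s t) : ¬ (NZ s t univ ∨ PQ s t univ) := by
  classical
  have hn : N1 s t univ := n1_of_br h.br
  rintro (h1 | h1)
  · exact h.np (pr_of_nz hn h1)
  · have hM : MinP (Pr Aok) s t := by
      refine ⟨hn, h.np, fun A a ha hA hne => ?_⟩
      exact h.cn ha (connS_conn hA) hne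
    obtain ⟨κ, c, hc⟩ := hM.pet h1 (fun A1 A2 a1 a2 b1 b2 b3 b4 b5 b6 b7 =>
      pr_sum A1 A2 a1 a2 b1 b2 b3 b4 b5 b6 b7)
    have hall : ∀ {κ c}, PetComp s t κ c →
        Hp (ctr (nine c) (c (nb 0 0)) s) (ctr (nine c) (c (nb 0 0)) t) := by
      intro κ c hc
      obtain ⟨h2, h3⟩ := conn9 hc
      exact hp_of_pr (hM.mn _ _ (mem_nine.2 ⟨nb 0 0, R129.Hfp.nb_ne 0 0, rfl⟩) h2 h3)
    have hp : Hp s t := by
      refine ⟨(pet0 hc (hall hc)).1, fun w => ?_⟩
      by_cases hw : w ∈ nine c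
      · obtain ⟨k, _, rfl⟩ := mem_nine.1 hw
        have h4 := rot hc k
        refine (pet0 h4 (hall h4)).2 _ fun h5 => ?_
        obtain ⟨l, hl, h6⟩ := mem_nine.1 h5
        have h7 := hc.inj h6
        apply hl
        rw [← R129.Hfp.tau_sig k l, h7, R129.Hfp.tau_self]
      · exact (pet0 hc (hall hc)).2 w hw
    refine h.np (pr_of_hp hp ?_)
    intro e x hne hx
    -- the edge has an end in the component
    have hin : ∃ k, s e = c k := by
      by_contra hno
      push Not at hno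
      have hno2 : ∀ k, t e ≠ c k := by
        intro k hk
        obtain ⟨l, hl⟩ := hc.cl' e k hk
        exact hno l hl
      obtain ⟨f, hf, _, hfe⟩ := hc.star 0
      have he0 := hf
      have hE := (hc.star 0)
      obtain ⟨ee, _, hends, _⟩ := hE
      have h5 := hends 0
      have hne5 : s (ee 0) ≠ t (ee 0) := by
        have h6 : c 0 ≠ c (nb 0 0) := fun h' => R129.Hfp.nb_ne 0 0 (hc.inj h').symm
        rcases h5 with ⟨a, b⟩ | ⟨a, b⟩
        · rw [a, b]; exact h6
        · rw [a, b]; exact h6.symm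
      have hnx : Nis s t (c 0) := by
        refine ⟨ee 0, hne5, ?_⟩
        rcases h5 with ⟨a, b⟩ | ⟨a, b⟩
        · exact Or.inl a
        · exact Or.inr b
      have hcut : ∀ d, (s d ∈ univ.image c ↔ t d ∈ univ.image c) := by
        intro d
        rw [mem_image, mem_image]
        constructor
        · rintro ⟨k, _, hk⟩
          obtain ⟨l, hl⟩ := hc.cl d k hk.symm
          exact ⟨l, mem_univ _, hl.symm⟩
        · rintro ⟨k, _, hk⟩
          obtain ⟨l, hl⟩ := hc.cl' d k hk.symm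
          exact ⟨l, mem_univ _, hl.symm⟩
      have h7 := cut3 Aok_neg h (Y := univ.image c) (x := c 0) (y := s e)
        (mem_image_of_mem _ (mem_univ _)) (fun h8 => by
          obtain ⟨k, _, hk⟩ := mem_image.1 h8
          exact hno k hk.symm) hnx ⟨e, hne, Or.inl rfl⟩
      have h8 : crs s t (univ.image c) = ∅ := by
        rw [eq_empty_iff_forall_notMem]
        intro d hd
        rw [mem_crs] at hd
        exact hd (hcut d)
      rw [h8, card_empty] at h7
      omega
    obtain ⟨k, hk⟩ := hin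
    obtain ⟨ee, hinj, _, hcut⟩ := hc.star k
    have hcr : crs s t {c k} = univ.image ee := by
      rw [← hcut]
      ext d
      rw [mem_crs, mem_singleton, mem_singleton]
      unfold Pool.Agent.TH362.TF.cut
      rw [mem_filter]
      simp only [mem_univ, true_and, ne_eq, decide_eq_decide]
    refine fe_of_fv hp (w := c k) ?_ ?_ hx
    · rw [hcr, card_image_of_injective _ hinj, card_univ, Fintype.card_fin]
    · exact mem_crs1.mpr ⟨hne, Or.inl hk⟩

end Pool.Agent.Zk83.AT
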