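import Pool.Agent.Zk83.AT.Dec
import Pool.Agent.Zk83.AT.Pet

set_option autoImplicit false
set_option linter.unusedSectionVars false

/-!
# Minors without flexible `1/2`-flow-pairs, and tree decompositions of adhesion three
-/

namespace Pool.Agent.Zk83.AT

open Finset
open Pool.Agent.TH462.T4 (crs mem_crs nl mem_nl)
open Pool.Agent.TH676.T4 (Nis)
open Pool.Agent.TH497.T4 (Closed tch mem_tch Conn Att comp crs_compl link)
open Pool.Agent.N399.TB (Side side_or side_not side_first side_disj tree_sink side_path mid part)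
open Pool.Agent.TH362.TF (N1 NZ PQ)

variable {V E : Type} [Fintype V] [DecidableEq V] [Fintype E] [DecidableEq E]

theorem ad_pr {s t : E → V} (hB : HasAD s t) (hb : ∀ Y : Finset V, (crs s t Y).card ≠ 1) :
    Pr Aok s t := by
  by_contra hno
  obtain ⟨s', t', h1, h2⟩ := exists_MinH cls_ad hB hb hno
  exact no_nzpq h2 (ad_nz Aok_neg h2 h1)

/-- the usual tree decompositions -/
theorem hasAD_of_tree {src dst : E → V} {ι : Type} [Fintype ι] {T : SimpleGraph ι}
    (hT : T.IsTree) (bag : ι → Finset V) (h1 : ∀ e, ∃ i, src e ∈ bag i ∧ dst e ∈ bag i)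
    (h2 : ∀ (i j : ι) (p : T.Walk i j), p.IsPath → ∀ k ∈ p.support, ∀ v, v ∈ bag i → v ∈ bag j →
      v ∈ bag k)
    (h3 : ∀ b, (∃ (s : ℕ) (Z : Fin s → Finset V), (∀ i, (Z i).card ≤ 3) ∧
      (∀ w, T.Adj b w → ∃ i, bag b ∩ bag w ⊆ Z i) ∧
      (bag b).card + ∑ i, ((Z i).card - 2) ≤ 17) ∨
      ∃ X : Finset V, X.card ≤ 9 ∧ (∀ w, T.Adj b w → (bag b ∩ bag w).card ≤ 3 ∧ bag b ∩ bag w ⊆ X) ∧
        ∀ e, src e ≠ dst e → src e ∈ bag b → dst e ∈ bag b → src e ∈ X ∨ dst e ∈ X) :
    HasAD src dst := by
  classical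
  choose τ hτ using h1
  have hmid : ∀ a b, T.Adj a b → ∀ v ∈ mid src dst T τ a b, v ∈ bag a ∧ v ∈ bag b := by
    rintro a b hab v ⟨⟨e, he, he2⟩, e', he', he2'⟩
    have k1 : v ∈ bag (τ e) := by
      rcases he with rfl | rfl
      · exact (hτ e).1
      · exact (hτ e).2
    have k2 : v ∈ bag (τ e') := by
      rcases he' with rfl | rfl
      · exact (hτ e').1
      · exact (hτ e').2
    obtain ⟨p, hp⟩ := (hT.1.preconnected (τ e) (τ e')).exists_isPath
    obtain ⟨k3, k4⟩ := side_path hT hab he2 he2' p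
    exact ⟨h2 _ _ p hp a k3 v k1 k2, h2 _ _ p hp b k4 v k1 k2⟩
  refine ⟨ι, inferInstance, T, τ, hT, fun b => ?_⟩
  rcases h3 b with ⟨s, Z, z1, z2, z3⟩ | ⟨X, x1, x2, x3⟩
  · refine Or.inl ⟨s, Z, z1, fun w hw => ?_, ?_⟩
    · obtain ⟨i, hZ2⟩ := z2 w hw
      exact ⟨i, fun v hv => hZ2 (mem_inter.mpr (hmid b w hw v hv))⟩
    · refine le_trans (Nat.add_le_add_right ?_ _) z3
      rw [← Set.ncard_coe_finset]
      refine Set.ncard_le_ncard ?_ (Set.toFinite _)
      rintro v (⟨e, he, rfl⟩ | ⟨w, hw, hv⟩)
      · rcases he with rfl | rfl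
        · exact (hτ e).1
        · exact (hτ e).2
      · exact (hmid b w hw v hv).1
  · refine Or.inr ⟨X, x1, fun w hw => ⟨?_, fun v hv => ?_⟩, fun e he hne => ?_⟩
    · refine le_trans ?_ (x2 w hw).1
      rw [← Set.ncard_coe_finset]
      refine Set.ncard_le_ncard ?_ (Set.toFinite _)
      intro v hv
      exact mem_coe.mpr (mem_inter.mpr (hmid b w hw v hv))
    · exact (x2 w hw).2 (mem_inter.mpr (hmid b w hw v hv))
    · subst he
      exact x3 e hne (hτ e).1 (hτ e).2

/-- the minors of a graph: connected sets of vertices are contracted, and the edges of `D` are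
deleted (they are made loops) -/
def Mi (s0 t0 s t : E → V) : Prop :=
  ∃ (π : V → V) (D : Finset E), (∀ v, Conn s0 t0 (univ.filter (fun u => π u = v))) ∧
    s = (fun e => π (s0 e)) ∧ t = fun e => if e ∈ D then π (s0 e) else π (t0 e)

theorem mi_refl (s t : E → V) : Mi s t s t := by
  refine ⟨id, ∅, fun v => ?_, rfl, ?_⟩
  · have : (univ.filter (fun u : V => id u = v)) = {v} := by
      ext u; simp
    rw [this]
    exact conn_one s t v
  · funext e
    simp

theorem cls_mi (s0 t0 : E → V) : Cls (V := V) (E := E) (Mi s0 t0) where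
  del := by
    rintro s t D' ⟨π, D, h1, rfl, rfl⟩
    refine ⟨π, D ∪ D', h1, rfl, ?_⟩
    funext e
    unfold dl
    by_cases h2 : e ∈ D' <;> by_cases h3 : e ∈ D <;> simp [h2, h3]
  con := by
    classical
    rintro s t K k ⟨π, D, h1, rfl, rfl⟩ hk hK
    refine ⟨fun v => kk K k (π v), D, fun v => ?_, rfl, ?_⟩
    · intro Y hY y hy y' hy'
      rw [mem_filter] at hy hy'
      have hy2 : kk K k (π y) = v := hy.2
      have hy2' : kk K k (π y') = v := hy'.2
      have hfib : ∀ u, kk K k u = v → ∀ x x', π x = u → π x' = u → (x ∈ Y ↔ x' ∈ Y) := by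
        intro u hu x x' hx hx'
        refine h1 u Y (fun e he he' => hY e ?_ ?_) x (by simp [hx]) x' (by simp [hx'])
        · rw [mem_filter] at he ⊢
          exact ⟨mem_univ _, by show kk K k (π (s0 e)) = v; rw [he.2]; exact hu⟩
        · rw [mem_filter] at he' ⊢
          exact ⟨mem_univ _, by show kk K k (π (t0 e)) = v; rw [he'.2]; exact hu⟩
      by_cases hv : π y ∈ K
      · have hvk : v = k := by
          rw [← hy2]; unfold kk; rw [if_pos hv]
        have hv' : π y' ∈ K := by
          by_contra hv'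
          unfold kk at hy2'
          rw [if_neg hv'] at hy2'
          exact hv' (by rw [hy2', hvk]; exact hk)
        have hkv : ∀ u ∈ K, kk K k u = v := by
          intro u hu; unfold kk; rw [if_pos hu, hvk]
        have h2 := hK (univ.filter (fun u => ∃ x, π x = u ∧ x ∈ Y)) (by
          intro e he he'
          change π (s0 e) ∈ K at he
          change (if e ∈ D then π (s0 e) else π (t0 e)) ∈ K at he'
          change π (s0 e) ∈ _ ↔ (if e ∈ D then π (s0 e) else π (t0 e)) ∈ _
          rw [mem_filter, mem_filter]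
          simp only [mem_univ, true_and]
          by_cases hD : e ∈ D
          · simp only [if_pos hD]
          · simp only [if_neg hD] at he' ⊢
            have h3 := hY e (by
              rw [mem_filter]; exact ⟨mem_univ _, hkv _ he⟩) (by
              rw [mem_filter]; exact ⟨mem_univ _, hkv _ he'⟩)
            constructor
            · rintro ⟨x, hx, hxY⟩
              exact ⟨t0 e, rfl, h3.mp ((hfib _ (hkv _ he) x _ hx rfl).mp hxY)⟩
            · rintro ⟨x, hx, hxY⟩
              exact ⟨s0 e, rfl, h3.mpr ((hfib _ (hkv _ he') x _ hx rfl).mp hxY)⟩)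
          (π y) hv (π y') hv'
        rw [mem_filter, mem_filter] at h2
        constructor
        · intro h4
          obtain ⟨_, x, hx, hxY⟩ := h2.mp ⟨mem_univ _, y, rfl, h4⟩
          exact (hfib _ (hkv _ hv') x y' hx rfl).mp hxY
        · intro h4
          obtain ⟨_, x, hx, hxY⟩ := h2.mpr ⟨mem_univ _, y', rfl, h4⟩
          exact (hfib _ (hkv _ hv) x y hx rfl).mp hxY
      · have e1 : π y = v := by
          unfold kk at hy2; rw [if_neg hv] at hy2; exact hy2
        have hv' : π y' ∉ K := by
          intro hv'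
          unfold kk at hy2'
          rw [if_pos hv'] at hy2'
          exact hv (by rw [e1, ← hy2']; exact hk)
        have e2 : π y' = v := by
          unfold kk at hy2'; rw [if_neg hv'] at hy2'; exact hy2'
        exact hfib v (by unfold kk; rw [if_neg (by rw [← e1]; exact hv)]) y y' e1 e2
    · funext e
      unfold cK kk
      by_cases h2 : e ∈ D <;> simp [h2]

/-- minimal graphs have at least eighteen vertices of odd degree -/
theorem odd18 {s t : E → V} (h : MinH Aok s t) : 18 ≤ (TH362.TF.odd s t univ).card := by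
  have h1 : ¬ (TH362.TF.odd s t univ).card ≤ 16 := fun h2 =>
    no_nzpq h (TH362.TF.main16 s t univ (n1_of_br h.br) h2)
  have h2 := TH362.TF.parity s t univ (fun _ => true)
  have h3 : TH362.TF.cut s t univ (fun _ => true) = ∅ := by
    unfold TH362.TF.cut
    rw [Finset.filter_eq_empty_iff]
    intro x _ hx
    exact hx rfl
  rw [h3, card_empty] at h2
  have h4 : (TH362.TF.odd s t univ).filter (fun _ => (true : Bool) = true) =
      TH362.TF.odd s t univ := by
    rw [Finset.filter_eq_self]
    intro x _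
    rfl
  rw [h4] at h2
  omega

theorem exists_min {s t : E → V} (hb : ∀ Y : Finset V, (crs s t Y).card ≠ 1)
    (h : ¬ Pr Aok s t) : ∃ s' t' : E → V, Mi s t s' t' ∧ MinH Aok s' t' :=
  exists_MinH (cls_mi s t) (mi_refl s t) hb h

end Pool.Agent.Zk83.AT
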