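import Pool.Agent.Zk83.AT.Star

set_option autoImplicit false
set_option linter.unusedSectionVars false

/-!
# Separations of minimal graphs
-/

namespace Pool.Agent.Zk83.AT

open Finset
open Pool.Agent.TH462.T4 (crs mem_crs nl mem_nl)
open Pool.Agent.TH676.T4 (Nis)
open Pool.Agent.TH497.T4 (Closed tch mem_tch Conn Att comp crs_compl link)

variable {V E Γ : Type} [Fintype V] [DecidableEq V] [Fintype E] [DecidableEq E] [AddCommGroup Γ]

theorem rs_single {s t : E → V} {F : Finset E} {w : V} {d : E} (hd : crs s t {w} \ F = {d})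
    (f : E → Γ) : bd s t (rs Fᶜ f) w = sg s w d (f d) := by
  have hd' : d ∈ crs s t {w} \ F := by rw [hd]; exact mem_singleton_self _
  have h1 : bd s t (rs Fᶜ f) w = bd s t (Pi.single d (f d)) w := by
    refine bd_eq_of fun e h1 h2 => ?_
    by_cases h3 : e = d
    · subst h3
      rw [Pi.single_eq_same]
      unfold rs
      rw [if_pos (mem_compl.mpr (mem_sdiff.mp hd').2)]
    · rw [Pi.single_eq_of_ne h3]
      unfold rs
      rw [if_neg]
      rw [mem_compl, not_not]
      by_contra h4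
      have : e ∈ crs s t {w} \ F := mem_sdiff.mpr ⟨mem_crs1.mpr ⟨h1, h2⟩, h4⟩
      rw [hd, mem_singleton] at this
      exact h3 this
  rw [h1, bd_single]
  unfold sg
  obtain ⟨h2, h3⟩ := mem_crs1.mp (mem_sdiff.mp hd').1
  rcases h3 with h3 | h3
  · rw [if_pos h3, if_neg (fun h4 => h2 (h3.trans h4.symm)), if_pos h3, sub_zero]
  · rw [if_neg (fun h4 => h2 (h4.trans h3.symm)), if_pos h3,
      if_neg (fun h4 => h2 (h4.trans h3.symm)), zero_sub]

theorem sg_inj {s : E → V} {z : V} {e : E} {x y : Γ} (h : sg s z e x = sg s z e y) : x = y := by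
  have := congrArg (sg s z e) h
  rwa [sg_sg, sg_sg] at this

/-- a flow on one side extends -/
theorem SP.ext {A : Γ → Prop} (hA : ∀ x, A x → A (-x)) {s t : E → V} {Z : Finset V} {F : Finset E}
    (h2 : SP A s t Z Fᶜ) {f : E → Γ} (hf : RF A s t Z F f) (hfZ : ∀ z ∈ Z, A (bd s t (rs F f) z)) :
    ∃ f2, RF A s t Z Fᶜ f2 ∧ ∀ z ∈ Z, bd s t (rs F f) z + bd s t (rs Fᶜ f2) z = 0 := by
  obtain ⟨f2, g1, g2⟩ := h2.re (fun z => - bd s t (rs F f) z) (fun z hz => hA _ (hfZ z hz)) (by
    rw [sum_neg_distrib, neg_eq_zero, ← sum_bd_univ s t (rs F f)]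
    exact sum_subset (subset_univ _) (fun v _ hv => hf.o v hv))
  exact ⟨f2, g1, fun z hz => by rw [g2 z hz, add_neg_cancel]⟩

theorem SP.fe1 {A : Γ → Prop} (hA : ∀ x, A x → A (-x)) {s t : E → V} {Z : Finset V} {F : Finset E}
    (h1 : SP A s t Z F) (h2 : SP A s t Z Fᶜ) {e : E} (he : e ∈ F) {x : Γ} (hne : s e ≠ t e)
    (hx : A x) : ∃ f, AF A s t f ∧ f e = x := by
  obtain ⟨f, g1, g2, g3⟩ := h1.fe e he x hne hx
  obtain ⟨f2, k1, k2⟩ := h2.ext hA g1 g2
  exact ⟨_, g1.glue k1 k2, by rw [rs_in he, g3]⟩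

theorem SP.fv1 {A : Γ → Prop} (hA : ∀ x, A x → A (-x)) {s t : E → V} {Z : Finset V} {F : Finset E}
    (h1 : SP A s t Z F) (h2 : SP A s t Z Fᶜ) {w : V} (hw : (crs s t {w}).card = 3)
    (hwF : crs s t {w} ⊆ F ∨ (w ∈ Z ∧ (crs s t {w} \ F).card = 1)) {g : E → Γ}
    (hg : bd s t g w = 0) (hgA : ∀ e ∈ crs s t {w}, A (g e)) :
    ∃ f, AF A s t f ∧ ∀ e ∈ crs s t {w}, f e = g e := by
  obtain ⟨f, g1, g2, g3⟩ := h1.fv w hw hwF g hg hgA
  obtain ⟨f2, k1, k2⟩ := h2.ext hA g1 g2
  refine ⟨_, g1.glue k1 k2, fun e he => ?_⟩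
  by_cases heF : e ∈ F
  · rw [rs_in heF, g3 e he heF]
  · rw [rs_out heF]
    rcases hwF with h3 | ⟨h3, h4⟩
    · exact absurd (h3 he) heF
    · obtain ⟨d, hd⟩ := card_eq_one.mp h4
      have hed : e = d := by
        have : e ∈ crs s t {w} \ F := mem_sdiff.mpr ⟨he, heF⟩
        rwa [hd, mem_singleton] at this
      subst hed
      have h5 := k2 w h3
      have h6 : bd s t (rs F f) w = bd s t (rs F g) w := by
        refine bd_eq_of fun e h7 h8 => ?_
        unfold rs
        split_ifs with h9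
        · exact g3 e (mem_crs1.mpr ⟨h7, h8⟩) h9
        · rfl
      have h7 : bd s t (rs F g) w + bd s t (rs Fᶜ g) w = 0 := by
        rw [← bd_add, rs_add_compl, hg]
      rw [h6, rs_single hd] at h5
      rw [rs_single hd] at h7
      exact sg_inj (add_left_cancel (h5.trans h7.symm))

/-- **Gluing.** -/
theorem pr_of_sp {A : Γ → Prop} (hA : ∀ x, A x → A (-x)) {s t : E → V} {Z : Finset V} {F : Finset E}
    (h1 : SP A s t Z F) (h2 : SP A s t Z Fᶜ)
    (hw : ∀ w, (crs s t {w}).card = 3 → crs s t {w} ⊆ F ∨ crs s t {w} ⊆ Fᶜ ∨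
      (w ∈ Z ∧ (crs s t {w} \ F).card = 1) ∨ (w ∈ Z ∧ (crs s t {w} \ Fᶜ).card = 1)) :
    Pr A s t := by
  have h1' : SP A s t Z Fᶜᶜ := by rw [compl_compl]; exact h1
  refine ⟨?_, ?_, ?_⟩
  · obtain ⟨f, g1, g2⟩ := h1.ex
    obtain ⟨f2, k1, k2⟩ := h2.ext hA g1 g2
    exact ⟨_, g1.glue k1 k2⟩
  · intro w hw3 g hg hgA
    rcases hw w hw3 with h | h | h | h
    · exact h1.fv1 hA h2 hw3 (Or.inl h) hg hgA
    · exact h2.fv1 hA h1' hw3 (Or.inl h) hg hgA
    · exact h1.fv1 hA h2 hw3 (Or.inr h) hg hgA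
    · exact h2.fv1 hA h1' hw3 (Or.inr h) hg hgA
  · intro e x hne hx
    by_cases he : e ∈ F
    · exact h1.fe1 hA h2 he hne hx
    · exact h2.fe1 hA h1' (mem_compl.mpr he) hne hx

/-- a separation with at most one root -/
theorem sep1 {A : Γ → Prop} {s t : E → V} (h : MinH A s t) {Z I : Finset V}
    (hc : Closed s t Z I)
    (hZ : Z.card ≤ 1) {x y : V} (hx : x ∈ I) (nx : Nis s t x) (hy : y ∉ I) (hy2 : y ∉ Z)
    (ny : Nis s t y) : False := by
  classical
  set F := tch s t I with hF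
  have hin : ∀ Y : Finset V, ∃ Y', crs s t Y' = crs s t Y ∩ F := by
    intro Y
    by_cases h1 : ∀ z ∈ Z, z ∉ Y
    · exact ⟨_, hc.yin Y h1⟩
    · push Not at h1
      obtain ⟨z, hz, hzY⟩ := h1
      refine ⟨Yᶜ ∩ I, ?_⟩
      rw [hc.yin Yᶜ, crs_compl]
      intro z' hz'
      have : z' = z := card_le_one.mp hZ z' hz' z hz
      rw [this, mem_compl, not_not]
      exact hzY
  have hout : ∀ Y : Finset V, ∃ Y', crs s t Y' = crs s t Y ∩ Fᶜ := by
    intro Y
    by_cases h1 : ∀ z ∈ Z, z ∉ Y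
    · exact ⟨_, hc.yout Y h1⟩
    · push Not at h1
      obtain ⟨z, hz, hzY⟩ := h1
      refine ⟨Yᶜ \ I, ?_⟩
      rw [hc.yout Yᶜ, crs_compl]
      intro z' hz'
      have : z' = z := card_le_one.mp hZ z' hz' z hz
      rw [this, mem_compl, not_not]
      exact hzY
  have b1 : ∀ Y : Finset V, (crs s t Y ∩ F).card ≠ 1 := by
    intro Y
    obtain ⟨Y', hY'⟩ := hin Y
    rw [← hY']
    exact h.br Y'
  have b2 : ∀ Y : Finset V, (crs s t Y ∩ Fᶜ).card ≠ 1 := by
    intro Y
    obtain ⟨Y', hY'⟩ := hout Y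
    rw [← hY']
    exact h.br Y'
  have p1 : Pr A s (dl s t Fᶜ) := h.del Fᶜ (by
    obtain ⟨e, he, he2⟩ := ny
    refine ⟨e, mem_compl.mpr (hc.nin ?_), he⟩
    rw [mem_compl, mem_compl, mem_union, mem_union]
    rcases he2 with he2 | he2
    · left; rw [he2]; tauto
    · right; rw [he2]; tauto) (fun Y => by rw [sdiff_compl]; exact b1 Y)
  have p2 : Pr A s (dl s t F) := h.del F (by
    obtain ⟨e, he, he2⟩ := nx
    refine ⟨e, mem_tch.mpr ?_, he⟩
    rcases he2 with he2 | he2
    · exact Or.inl (he2 ▸ hx)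
    · exact Or.inr (he2 ▸ hx)) (fun Y => by
      have : crs s t Y \ F = crs s t Y ∩ Fᶜ := by
        ext e; rw [mem_sdiff, mem_inter, mem_compl]
      rw [this]; exact b2 Y)
  have gl : ∀ f1 f2 : E → Γ, AF A s (dl s t Fᶜ) f1 → AF A s (dl s t F) f2 →
      AF A s t (rs F f1 + rs Fᶜ f2) := by
    intro f1 f2 g1 g2
    have k1 : RF A s t ∅ F f1 := ⟨fun e _ => g1.2 e, fun v _ => by
      rw [← g1.1 v, bd_dl, compl_compl]⟩
    have k2 : RF A s t ∅ Fᶜ f2 := ⟨fun e _ => g2.2 e, fun v _ => by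
      rw [← g2.1 v, bd_dl]⟩
    exact k1.glue k2 (fun z hz => absurd hz (notMem_empty _))
  obtain ⟨f1, g1⟩ := p1.ex
  obtain ⟨f2, g2⟩ := p2.ex
  refine h.np ⟨⟨_, gl f1 f2 g1 g2⟩, ?_, ?_⟩
  · intro w hw g hg hgA
    have c1 := b1 {w}
    have c2 := b2 {w}
    have c3 : (crs s t {w} ∩ F).card + (crs s t {w} ∩ Fᶜ).card = 3 := by
      rw [← hw, ← card_union_of_disjoint]
      · congr 1
        ext e
        rw [mem_union, mem_inter, mem_inter, mem_compl]
        tauto
      · rw [disjoint_left]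
        intro e he he2
        exact (mem_compl.mp (mem_inter.mp he2).2) (mem_inter.mp he).2
    have c4 : (crs s t {w} ∩ Fᶜ).card = 0 ∨ (crs s t {w} ∩ F).card = 0 := by omega
    rcases c4 with c4 | c4
    · have hsub : ∀ e ∈ crs s t {w}, e ∈ F := by
        intro e he
        by_contra h1
        have : e ∈ crs s t {w} ∩ Fᶜ := mem_inter.mpr ⟨he, mem_compl.mpr h1⟩
        rw [card_eq_zero.mp c4] at this
        exact notMem_empty _ this
      have hcr : crs s (dl s t Fᶜ) {w} = crs s t {w} := by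
        rw [crs_dl]
        ext e
        rw [mem_sdiff, mem_compl, not_not]
        exact ⟨fun h1 => h1.1, fun h1 => ⟨h1, hsub e h1⟩⟩
      obtain ⟨f, k1, k2⟩ := p1.fv w (by rw [hcr]; exact hw) g (by
        rw [bd_dl, compl_compl, ← hg]
        refine bd_eq_of fun e h1 h2 => ?_
        unfold rs
        rw [if_pos (hsub e (mem_crs1.mpr ⟨h1, h2⟩))]) (by rw [hcr]; exact hgA)
      rw [hcr] at k2
      exact ⟨_, gl f f2 k1 g2, fun e he => by rw [rs_in (hsub e he), k2 e he]⟩
    · have hsub : ∀ e ∈ crs s t {w}, e ∉ F := by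
        intro e he h1
        have : e ∈ crs s t {w} ∩ F := mem_inter.mpr ⟨he, h1⟩
        rw [card_eq_zero.mp c4] at this
        exact notMem_empty _ this
      have hcr : crs s (dl s t F) {w} = crs s t {w} := by
        rw [crs_dl]
        ext e
        rw [mem_sdiff]
        exact ⟨fun h1 => h1.1, fun h1 => ⟨h1, hsub e h1⟩⟩
      obtain ⟨f, k1, k2⟩ := p2.fv w (by rw [hcr]; exact hw) g (by
        rw [bd_dl, ← hg]
        refine bd_eq_of fun e h1 h2 => ?_
        unfold rs
        rw [if_pos (mem_compl.mpr (hsub e (mem_crs1.mpr ⟨h1, h2⟩)))]) (by rw [hcr]; exact hgA)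
      rw [hcr] at k2
      exact ⟨_, gl f1 f g1 k1, fun e he => by rw [rs_out (hsub e he), k2 e he]⟩
  · intro e x _ hxA
    by_cases he : e ∈ F
    · obtain ⟨f, k1, k2⟩ := p1.fe' e x hxA
      exact ⟨_, gl f f2 k1 g2, by rw [rs_in he, k2]⟩
    · obtain ⟨f, k1, k2⟩ := p2.fe' e x hxA
      exact ⟨_, gl f1 f g1 k1, by rw [rs_out he, k2]⟩

theorem conn_edge {s t : E → V} (e : E) : Conn s t {s e, t e} := by
  intro Y hY y hy y' hy'
  have h1 := hY e (by simp) (by simp)
  rw [mem_insert, mem_singleton] at hy hy'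
  rcases hy with rfl | rfl <;> rcases hy' with rfl | rfl
  · exact Iff.rfl
  · exact h1
  · exact h1.symm
  · exact Iff.rfl

/-- the contraction of one edge of a cut with two edges -/
theorem two {A : Γ → Prop} (hA : ∀ x, A x → A (-x)) {s t : E → V} (h : MinH A s t) {Y : Finset V}
    {e1 e2 : E} (hne : e1 ≠ e2) (hY : crs s t Y = {e1, e2}) :
    (∃ f, AF A s t f) ∧
    (∀ w, (crs s t {w}).card = 3 → e1 ∉ crs s t {w} → ∀ g : E → Γ, bd s t g w = 0 →
      (∀ e ∈ crs s t {w}, A (g e)) → ∃ f, AF A s t f ∧ ∀ e ∈ crs s t {w}, f e = g e) ∧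
    (∀ e x, e ≠ e1 → A x → ∃ f, AF A s t f ∧ f e = x) := by
  classical
  have he1 : e1 ∈ crs s t Y := by rw [hY]; simp
  have hst : s e1 ≠ t e1 := fun h1 => by
    rw [mem_crs, h1] at he1; exact he1 Iff.rfl
  set K : Finset V := {s e1, t e1} with hK
  have hk : s e1 ∈ K := by simp [hK]
  have hP : Pr A (cK K (s e1) s) (cK K (s e1) t) :=
    h.cn hk (conn_edge e1) ⟨e1, hst, by simp [hK], by simp [hK]⟩
  have key : ∀ f : E → Γ, AF A (cK K (s e1) s) (cK K (s e1) t) f →
      ∃ f', AF A s t f' ∧ ∀ e, e ≠ e1 → f' e = f e := by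
    rintro f ⟨g1, g2⟩
    set f' : E → Γ := f + Pi.single e1 (- bd s t f (s e1)) with hf'
    have h1 : ∀ v, v ∉ K → bd s t f v = 0 := fun v hv => by rw [← bd_cK hk s t f hv, g1]
    have h2 : bd s t f' (s e1) = 0 := by
      rw [hf', bd_add, bd_single, if_pos rfl, if_neg hst.symm, sub_zero, add_neg_cancel]
    have h3 : ∀ v, v ≠ t e1 → bd s t f' v = 0 := by
      intro v hv
      by_cases hv2 : v = s e1
      · rw [hv2]; exact h2
      · rw [hf', bd_add, bd_single, if_neg (Ne.symm hv2), if_neg (Ne.symm hv), sub_zero, add_zero]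
        exact h1 v (by simp [hK, hv2, hv])
    have h4 : ∀ v, bd s t f' v = 0 := by
      intro v
      by_cases hv : v = t e1
      · have h5 := sum_bd_univ s t f'
        rw [sum_eq_single v] at h5
        · exact h5
        · intro b _ hb
          exact h3 b (by rw [← hv]; exact hb)
        · intro h6; exact absurd (mem_univ v) h6
      · exact h3 v hv
    have h5 : ∀ e, e ≠ e1 → f' e = f e := by
      intro e he
      rw [hf', Pi.add_apply, Pi.single_eq_of_ne he, add_zero]
    refine ⟨f', ⟨h4, fun e => ?_⟩, h5⟩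
    by_cases he : e = e1
    · subst he
      have h6 := sum_bd s t f' Y
      rw [sum_eq_zero (fun v _ => h4 v), hY, sum_pair hne] at h6
      have h7 : A (f' e2) := by rw [h5 e2 hne.symm]; exact g2 e2
      have h8 : A (- f' e2) := hA _ h7
      by_cases k1 : s e ∈ Y <;> by_cases k2 : s e2 ∈ Y
      · rw [if_pos k1, if_pos k2] at h6
        rw [eq_neg_of_add_eq_zero_left h6.symm]; exact h8
      · rw [if_pos k1, if_neg k2] at h6
        rw [eq_neg_of_add_eq_zero_left h6.symm, neg_neg]; exact h7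
      · rw [if_neg k1, if_pos k2] at h6
        rw [neg_add_eq_zero.mp h6.symm]; exact h7
      · rw [if_neg k1, if_neg k2] at h6
        have : f' e = - f' e2 := by
          rw [← sub_eq_add_neg] at h6
          have := sub_eq_zero.mp h6.symm
          rw [← this, neg_neg]
        rw [this]; exact h8
    · rw [h5 e he]; exact g2 e
  refine ⟨?_, ?_, ?_⟩
  · obtain ⟨f, hf⟩ := hP.ex
    obtain ⟨f', hf', _⟩ := key f hf
    exact ⟨f', hf'⟩
  · intro w hw hew g hg hgA
    have hwK : w ∉ K := by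
      rw [hK, mem_insert, mem_singleton, not_or]
      constructor
      · intro h1; exact hew (mem_crs1.mpr ⟨hst, Or.inl h1.symm⟩)
      · intro h1; exact hew (mem_crs1.mpr ⟨hst, Or.inr h1.symm⟩)
    have hcr : crs (cK K (s e1) s) (cK K (s e1) t) {w} = crs s t {w} := by
      rw [crs_cK]
      congr 1
      ext v
      rw [mem_pre, mem_singleton, mem_singleton]
      split_ifs with h1
      · exact ⟨fun h2 => absurd (h2 ▸ hk) hwK, fun h2 => absurd (h2 ▸ h1) hwK⟩
      · exact Iff.rfl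
    obtain ⟨f, hf, hfg⟩ := hP.fv w (by rw [hcr]; exact hw) g (by rw [bd_cK hk s t g hwK]; exact hg)
      (by rw [hcr]; exact hgA)
    rw [hcr] at hfg
    obtain ⟨f', hf', hff⟩ := key f hf
    exact ⟨f', hf', fun e he => by rw [hff e (fun h1 => hew (h1 ▸ he)), hfg e he]⟩
  · intro e x he hx
    obtain ⟨f, hf, hfe⟩ := hP.fe' e x hx
    obtain ⟨f', hf', hff⟩ := key f hf
    exact ⟨f', hf', by rw [hff e he, hfe]⟩

/-- every edge cut with proper edges on both sides has at least three edges -/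
theorem cut3 {A : Γ → Prop} (hA : ∀ x, A x → A (-x)) {s t : E → V} (h : MinH A s t) {Y : Finset V}
    {x y : V} (hx : x ∈ Y) (hy : y ∉ Y) (nx : Nis s t x) (ny : Nis s t y) :
    3 ≤ (crs s t Y).card := by
  classical
  by_contra hlt
  have h1 := h.br Y
  have h02 : (crs s t Y).card = 0 ∨ (crs s t Y).card = 2 := by omega
  rcases h02 with h0 | h2
  · rw [card_eq_zero] at h0
    have hin : ∀ e, (s e ∈ Y ↔ t e ∈ Y) := by
      intro e
      by_contra hc
      have := mem_crs.mpr hc
      rw [h0] at this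
      exact absurd this (notMem_empty _)
    refine sep1 h (Z := ∅) (I := Y) ?_ (by simp) hx nx hy (notMem_empty _) ny
    intro e he
    have := hin e
    rw [union_empty]
    tauto
  · obtain ⟨e1, e2, hne, hY⟩ := card_eq_two.mp h2
    obtain ⟨a1, a2, a3⟩ := two hA h hne hY
    obtain ⟨b1, b2, b3⟩ := two hA h hne.symm (by rw [hY, pair_comm] : crs s t Y = {e2, e1})
    refine h.np ⟨a1, ?_, ?_⟩
    · intro w hw g hg hgA
      by_cases k1 : e1 ∈ crs s t {w}
      · by_cases k2 : e2 ∈ crs s t {w}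
        · exfalso
          apply h.br (univ.filter (fun v => ¬ (v ∈ Y ↔ v = w)))
          have h3 : crs s t (univ.filter (fun v => ¬ (v ∈ Y ↔ v = w))) =
              crs s t {w} \ crs s t Y := by
            ext e
            have h4 : e ∈ crs s t Y → e ∈ crs s t {w} := by
              intro h5
              rw [hY, mem_insert, mem_singleton] at h5
              rcases h5 with rfl | rfl
              · exact k1
              · exact k2
            rw [mem_crs, mem_crs, mem_singleton, mem_singleton] at h4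
            rw [mem_sdiff, mem_crs, mem_crs, mem_crs, mem_singleton, mem_singleton, mem_filter,
              mem_filter]
            simp only [mem_univ, true_and]
            tauto
          rw [h3, card_sdiff_of_subset, h2, hw]
          rw [hY]
          intro e he
          rw [mem_insert, mem_singleton] at he
          rcases he with rfl | rfl
          · exact k1
          · exact k2
        · exact b2 w hw k2 g hg hgA
      · exact a2 w hw k1 g hg hgA
    · intro e x _ hx
      by_cases he : e = e1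
      · exact b3 e x (by rw [he]; exact hne) hx
      · exact a3 e x he hx

end Pool.Agent.Zk83.AT
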