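import Pool.Agent.Zk83.AT.Sep

set_option autoImplicit false
set_option linter.unusedSectionVars false

/-!
# Vertex cuts of minimal graphs
-/

namespace Pool.Agent.Zk83.AT

open Finset
open Pool.Agent.TH462.T4 (crs mem_crs nl mem_nl)
open Pool.Agent.TH676.T4 (Nis)
open Pool.Agent.TH497.T4 (Closed tch mem_tch Conn Att comp crs_compl link)

variable {V E Γ : Type} [Fintype V] [DecidableEq V] [Fintype E] [DecidableEq E] [AddCommGroup Γ]

theorem att_crs {s t : E → V} {K : Finset V} {z : V} {e : E} (h : Att s t K z e) (hz : z ∉ K) :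
    e ∈ crs s t {z} := by
  rw [mem_crs1]
  rcases h with ⟨h1, h2⟩ | ⟨h1, h2⟩
  · exact ⟨fun h3 => hz (h2 ▸ h3 ▸ h1), Or.inr h2⟩
  · exact ⟨fun h3 => hz (h2 ▸ h3.symm ▸ h1), Or.inl h2⟩

/-- the induction step for separations -/
theorem sep_step {A : Γ → Prop} (hA : ∀ x, A x → A (-x)) {src dst : E → V} (h : MinH A src dst)
    {Z I : Finset V}
    (hc : Closed src dst Z I) (hd : Disjoint I Z) (h2 : 2 ≤ Z.card) (h3 : Z.card ≤ 3)
    {x y : V} (hx : x ∈ I) (nx : Nis src dst x) (hy : y ∈ (I ∪ Z)ᶜ) (ny : Nis src dst y)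
    (ih : ∀ Z' K : Finset V, Z'.card + 1 = Z.card → Disjoint K Z' → Closed src dst Z' K →
      ∀ a ∈ K, Nis src dst a → ∀ b, b ∉ K → b ∉ Z' → Nis src dst b → False)
    (n1 : ∀ K ⊆ I, ∀ en : V → E, (∀ z ∈ Z, Att src dst K z (en z)) →
      ∃ e ∈ tch src dst I, src e ≠ dst e ∧ ∀ z ∈ Z, e ≠ en z)
    (n2 : ∀ K ⊆ (I ∪ Z)ᶜ, ∀ en : V → E, (∀ z ∈ Z, Att src dst K z (en z)) →
      ∃ e ∈ tch src dst (I ∪ Z)ᶜ, src e ≠ dst e ∧ ∀ z ∈ Z, e ≠ en z) : False := by
  classical
  have hyI : y ∉ I := by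
    intro h5; rw [mem_compl, mem_union] at hy; exact hy (Or.inl h5)
  have hyZ : y ∉ Z := by
    intro h5; rw [mem_compl, mem_union] at hy; exact hy (Or.inr h5)
  obtain ⟨K, hKI, hxK, hK1, hK2, hK3⟩ := comp (src := src) (dst := dst) I hx
  obtain ⟨K', hKO, hyK, hK1', hK2', hK3'⟩ := comp (src := src) (dst := dst) (I ∪ Z)ᶜ hy
  have hKc : Conn src dst K := fun Y hY a ha b hb => (hK3 Y hY a ha).trans (hK3 Y hY b hb).symm
  have hKc' : Conn src dst K' :=
    fun Y hY a ha b hb => (hK3' Y hY a ha).trans (hK3' Y hY b hb).symm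
  have hIZ : ∀ a ∈ I, a ∉ Z := fun a ha hz => disjoint_left.mp hd ha hz
  have hOZ : ∀ a ∈ (I ∪ Z)ᶜ, a ∉ I ∧ a ∉ Z := by
    intro a ha
    rw [mem_compl, mem_union] at ha
    exact ⟨fun h5 => ha (Or.inl h5), fun h5 => ha (Or.inr h5)⟩
  have at1 : ∀ z ∈ Z, ∃ e, Att src dst K z e := by
    intro z hz
    by_contra hno
    refine ih (Z.erase z) K (by rw [card_erase_of_mem hz]; omega) ?_
      (hc.attach hKI hK1 hK2 z hno) x hxK nx y (fun h5 => hyI (hKI h5))
      (fun h5 => hyZ (mem_of_mem_erase h5)) ny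
    exact disjoint_left.mpr fun a ha hz' => hIZ a (hKI ha) (mem_of_mem_erase hz')
  have at2 : ∀ z ∈ Z, ∃ e, Att src dst K' z e := by
    intro z hz
    by_contra hno
    refine ih (Z.erase z) K' (by rw [card_erase_of_mem hz]; omega) ?_
      (hc.out.attach hKO hK1' hK2' z hno) y hyK ny x (fun h5 => (hOZ x (hKO h5)).1 hx)
      (fun h5 => hIZ x hx (mem_of_mem_erase h5)) nx
    exact disjoint_left.mpr fun a ha hz' => (hOZ a (hKO ha)).2 (mem_of_mem_erase hz')
  haveI : Nonempty E := ⟨nx.choose⟩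
  have hE : ∃ en : V → E, ∀ z ∈ Z, Att src dst K z (en z) :=
    ⟨fun z => if hz : z ∈ Z then (at1 z hz).choose else Classical.arbitrary E,
      fun z hz => by simp only [hz, dif_pos]; exact (at1 z hz).choose_spec⟩
  have hE' : ∃ en : V → E, ∀ z ∈ Z, Att src dst K' z (en z) :=
    ⟨fun z => if hz : z ∈ Z then (at2 z hz).choose else Classical.arbitrary E,
      fun z hz => by simp only [hz, dif_pos]; exact (at2 z hz).choose_spec⟩
  obtain ⟨en, hen⟩ := hE
  obtain ⟨en', hen'⟩ := hE'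
  have hKt : ∀ e, (src e ∈ K ∨ dst e ∈ K) → e ∈ tch src dst I := fun e he => mem_tch.mpr (by
    rcases he with he | he
    · exact Or.inl (hKI he)
    · exact Or.inr (hKI he))
  have hKt' : ∀ e, (src e ∈ K' ∨ dst e ∈ K') → e ∉ tch src dst I := fun e he => hc.nin (by
    rcases he with he | he
    · exact Or.inl (hKO he)
    · exact Or.inr (hKO he))
  -- the outside is replaced by a star
  have s1 : SP A src dst Z (tch src dst I) := star hA h (Z := Z) (K := K') h2 h3
    (fun z hz h5 => (hOZ z (hKO h5)).2 hz) hKc' hKt' en' hen'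
    (fun Y z hz z' hz' hzY hzY' => link hKc hKt (hen z hz) (hen z' hz') Y hzY hzY')
    (fun Y hY => ⟨Y ∩ I, hc.yin Y hY⟩) (by
      obtain ⟨e, h5, h6, h7⟩ := n2 K' hKO en' hen'
      exact ⟨e, hc.nin (mem_tch.mp h5), h6, h7⟩)
  -- the inside is replaced by a star
  have s2 : SP A src dst Z (tch src dst I)ᶜ := star hA h (Z := Z) (K := K) h2 h3
    (fun z hz h5 => hIZ z (hKI h5) hz) hKc (fun e he h5 => (mem_compl.mp h5) (hKt e he)) en hen
    (fun Y z hz z' hz' hzY hzY' =>
      link hKc' (fun e he => mem_compl.mpr (hKt' e he)) (hen' z hz) (hen' z' hz') Y hzY hzY')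
    (fun Y hY => ⟨Y \ I, hc.yout Y hY⟩) (by
      obtain ⟨e, h5, h6, h7⟩ := n1 K hKI en hen
      exact ⟨e, fun h8 => (mem_compl.mp h8) h5, h6, h7⟩)
  refine h.np (pr_of_sp hA s1 s2 fun w hw => ?_)
  by_cases hwZ : w ∈ Z
  · right; right
    have e1 : en w ∈ crs src dst {w} := att_crs (hen w hwZ) (fun h5 => hIZ w (hKI h5) hwZ)
    have e2 : en' w ∈ crs src dst {w} := att_crs (hen' w hwZ) (fun h5 => (hOZ w (hKO h5)).2 hwZ)
    have e1F : en w ∈ tch src dst I := hKt _ (by
      rcases hen w hwZ with ⟨h5, _⟩ | ⟨h5, _⟩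
      · exact Or.inl h5
      · exact Or.inr h5)
    have e2F : en' w ∉ tch src dst I := hKt' _ (by
      rcases hen' w hwZ with ⟨h5, _⟩ | ⟨h5, _⟩
      · exact Or.inl h5
      · exact Or.inr h5)
    have c1 : 0 < (crs src dst {w} \ tch src dst I).card :=
      card_pos.mpr ⟨en' w, mem_sdiff.mpr ⟨e2, e2F⟩⟩
    have c2 : 0 < (crs src dst {w} \ (tch src dst I)ᶜ).card :=
      card_pos.mpr ⟨en w, mem_sdiff.mpr ⟨e1, fun h5 => (mem_compl.mp h5) e1F⟩⟩
    have c3 : (crs src dst {w} \ tch src dst I).card + (crs src dst {w} \ (tch src dst I)ᶜ).card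
        = 3 := by
      rw [← hw, ← card_union_of_disjoint]
      · congr 1
        ext e
        rw [mem_union, mem_sdiff, mem_sdiff, mem_compl]
        tauto
      · rw [disjoint_left]
        intro e he he2
        exact (mem_sdiff.mp he2).2 (mem_compl.mpr (mem_sdiff.mp he).2)
    have c4 : (crs src dst {w} \ tch src dst I).card = 1 ∨
        (crs src dst {w} \ (tch src dst I)ᶜ).card = 1 := by omega
    rcases c4 with c4 | c4
    · exact Or.inl ⟨hwZ, c4⟩
    · exact Or.inr ⟨hwZ, c4⟩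
  · by_cases hwI : w ∈ I
    · left
      intro e he
      rcases (mem_crs1.mp he).2 with h5 | h5
      · exact mem_tch.mpr (Or.inl (h5 ▸ hwI))
      · exact mem_tch.mpr (Or.inr (h5 ▸ hwI))
    · right; left
      intro e he
      refine mem_compl.mpr (hc.nin ?_)
      have h6 : w ∈ (I ∪ Z)ᶜ := by
        rw [mem_compl, mem_union]; tauto
      rcases (mem_crs1.mp he).2 with h5 | h5
      · exact Or.inl (h5 ▸ h6)
      · exact Or.inr (h5 ▸ h6)

/-- few roots leave an edge -/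
theorem ne_two {A : Γ → Prop} (hA : ∀ x, A x → A (-x)) {src dst : E → V} (h : MinH A src dst)
    {Z O : Finset V} {x y : V} (hx : x ≠ y)
    (nx : Nis src dst x) (hy : y ∈ O) (ny : Nis src dst y) (hZ : Z.card ≤ 2) (en : V → E) :
    ∃ e ∈ tch src dst O, src e ≠ dst e ∧ ∀ z ∈ Z, e ≠ en z := by
  have h3 : 3 ≤ (crs src dst {y}).card :=
    cut3 hA h (x := y) (y := x) (mem_singleton_self _) (by simpa using hx) ny nx
  have h4 : (Z.image en).card < (crs src dst {y}).card :=
    lt_of_le_of_lt card_image_le (by omega)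
  obtain ⟨e, he, he2⟩ := exists_mem_notMem_of_card_lt_card h4
  rw [mem_crs, mem_singleton, mem_singleton] at he
  refine ⟨e, mem_tch.mpr ?_, fun h5 => he (by rw [h5]), fun z hz h5 => he2 ?_⟩
  · by_cases h5 : src e = y
    · exact Or.inl (h5 ▸ hy)
    · have : dst e = y := by tauto
      exact Or.inr (this ▸ hy)
  · rw [h5]; exact mem_image_of_mem _ hz

/-- two vertices leave an edge -/
theorem ne_three {A : Γ → Prop} (hA : ∀ x, A x → A (-x)) {src dst : E → V} (h : MinH A src dst)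
    {Z O K : Finset V} {y y2 : V}
    (hyy : y ≠ y2) (hy : y ∈ O) (ny : Nis src dst y) (hy2 : y2 ∈ O) (ny2 : Nis src dst y2)
    (hyZ : y ∉ Z) (hy2Z : y2 ∉ Z) (hZ : Z.card ≤ 3) (en : V → E)
    (hen : ∀ z ∈ Z, Att src dst K z (en z)) :
    ∃ e ∈ tch src dst O, src e ≠ dst e ∧ ∀ z ∈ Z, e ≠ en z := by
  by_contra hno
  push Not at hno
  have hsub : ∀ w ∈ O, crs src dst {w} ⊆ Z.image en := by
    intro w hw e he
    rw [mem_crs, mem_singleton, mem_singleton] at he
    obtain ⟨z, hz, h5⟩ := hno e (mem_tch.mpr (by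
      by_cases h5 : src e = w
      · exact Or.inl (h5 ▸ hw)
      · have : dst e = w := by tauto
        exact Or.inr (this ▸ hw))) (fun h5 => he (by rw [h5]))
    rw [h5]; exact mem_image_of_mem _ hz
  have c1 : 3 ≤ (crs src dst {y}).card :=
    cut3 hA h (x := y) (y := y2) (mem_singleton_self _) (by simpa using hyy.symm) ny ny2
  have c2 : 3 ≤ (crs src dst {y2}).card :=
    cut3 hA h (x := y2) (y := y) (mem_singleton_self _) (by simpa using hyy) ny2 ny
  have c3 : (Z.image en).card ≤ 3 := card_image_le.trans hZ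
  have e1 := eq_of_subset_of_card_le (hsub y hy) (by omega)
  have e2 := eq_of_subset_of_card_le (hsub y2 hy2) (by omega)
  obtain ⟨e, he⟩ : (crs src dst {y}).Nonempty := card_pos.mp (by omega)
  have he1 := he
  rw [e1] at he1
  have he2 := he1
  rw [← e2] at he2
  obtain ⟨z, hz, rfl⟩ := mem_image.mp he1
  rw [mem_crs, mem_singleton, mem_singleton] at he he2
  have hzy : z ≠ y := fun h5 => hyZ (h5 ▸ hz)
  have hzy2 : z ≠ y2 := fun h5 => hy2Z (h5 ▸ hz)
  rcases hen z hz with ⟨h5, h6⟩ | ⟨h5, h6⟩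
  · rw [h6] at he he2
    have g1 : src (en z) = y := by tauto
    have g2 : src (en z) = y2 := by tauto
    exact hyy (g1.symm.trans g2)
  · rw [h6] at he he2
    have g1 : dst (en z) = y := by tauto
    have g2 : dst (en z) = y2 := by tauto
    exact hyy (g1.symm.trans g2)

theorem sep2' {A : Γ → Prop} (hA : ∀ x, A x → A (-x)) {src dst : E → V} (h : MinH A src dst)
    {Z I : Finset V} (hc : Closed src dst Z I)
    (hd : Disjoint I Z) (hZ : Z.card ≤ 2) {x y : V} (hx : x ∈ I) (nx : Nis src dst x)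
    (hy : y ∉ I) (hy2 : y ∉ Z) (ny : Nis src dst y) : False := by
  by_cases h1 : Z.card ≤ 1
  · exact sep1 h hc h1 hx nx hy hy2 ny
  · have hxy : x ≠ y := fun h5 => hy (h5 ▸ hx)
    have hyO : y ∈ (I ∪ Z)ᶜ := by
      rw [mem_compl, mem_union]; tauto
    refine sep_step hA h hc hd (by omega) (by omega) hx nx hyO ny ?_
      (fun K _ en _ => ne_two hA h hxy.symm ny hx nx hZ en)
      (fun K _ en _ => ne_two hA h hxy nx hyO ny hZ en)
    intro Z' K hZ' _ hc' a ha na b hb hb2 nb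
    exact sep1 h hc' (by omega) ha na hb hb2 nb

/-- **No vertex cuts with at most two vertices.** -/
theorem sep2 {A : Γ → Prop} (hA : ∀ x, A x → A (-x)) {src dst : E → V} (h : MinH A src dst)
    {Z I : Finset V} (hc : Closed src dst Z I)
    (hZ : Z.card ≤ 2) {x y : V} (hx : x ∈ I) (nx : Nis src dst x)
    (hy : y ∉ I) (hy2 : y ∉ Z) (ny : Nis src dst y) : False := by
  refine sep2' hA h (Z := Z \ I) (I := I) ?_ ?_ ((card_le_card sdiff_subset).trans hZ) hx nx hy
    (fun h5 => hy2 (mem_sdiff.mp h5).1) ny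
  · intro e he
    have := hc e he
    rw [union_sdiff_self_eq_union]
    exact this
  · exact disjoint_sdiff

/-- **A vertex cut with three vertices separates only one vertex.** -/
theorem sep3 {A : Γ → Prop} (hA : ∀ x, A x → A (-x)) {src dst : E → V} (h : MinH A src dst)
    {Z I : Finset V} (hc : Closed src dst Z I)
    (hZ : Z.card ≤ 3) {x x2 y y2 : V} (hx : x ∈ I) (nx : Nis src dst x) (hx2 : x2 ∈ I)
    (nx2 : Nis src dst x2) (hxx : x ≠ x2) (hy : y ∉ I) (hyZ : y ∉ Z) (ny : Nis src dst y)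
    (hy2 : y2 ∉ I) (hy2Z : y2 ∉ Z) (ny2 : Nis src dst y2) (hyy : y ≠ y2) : False := by
  have hc' : Closed src dst (Z \ I) I := by
    intro e he
    have := hc e he
    rw [union_sdiff_self_eq_union]
    exact this
  have hd : Disjoint I (Z \ I) := disjoint_sdiff
  have hZ' : (Z \ I).card ≤ 3 := (card_le_card sdiff_subset).trans hZ
  have hyZ' : y ∉ Z \ I := fun h5 => hyZ (mem_sdiff.mp h5).1
  have hy2Z' : y2 ∉ Z \ I := fun h5 => hy2Z (mem_sdiff.mp h5).1
  generalize Z \ I = W at hc' hd hZ' hyZ' hy2Z'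
  by_cases h2 : W.card ≤ 2
  · exact sep2 hA h hc' h2 hx nx hy hyZ' ny
  · have hyO : y ∈ (I ∪ W)ᶜ := by
      rw [mem_compl, mem_union]; tauto
    have hy2O : y2 ∈ (I ∪ W)ᶜ := by
      rw [mem_compl, mem_union]; tauto
    refine sep_step hA h hc' hd (by omega) (by omega) hx nx hyO ny ?_
      (fun K _ en hen => ne_three hA h hxx hx nx hx2 nx2 (disjoint_left.mp hd hx)
        (disjoint_left.mp hd hx2) hZ' en hen)
      (fun K _ en hen => ne_three hA h hyy hyO ny hy2O ny2 hyZ' hy2Z' hZ' en hen)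
    intro Z' K hZ'' hd' hc'' a ha na b hb hb2 nb
    exact sep2 hA h hc'' (by omega) ha na hb hb2 nb

end Pool.Agent.Zk83.AT
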