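import Pool.Agent.Zk83.AT.Bd

set_option autoImplicit false
set_option linter.unusedSectionVars false

/-!
# One side of a separation is replaced by a star
-/

namespace Pool.Agent.Zk83.AT

open Finset
open Pool.Agent.TH462.T4 (crs mem_crs nl mem_nl)
open Pool.Agent.TH676.T4 (Nis)
open Pool.Agent.TH497.T4 (Closed tch mem_tch Conn Att comp crs_compl link)

variable {V E Γ : Type} [Fintype V] [DecidableEq V] [Fintype E] [DecidableEq E] [AddCommGroup Γ]

/-- `f` is a flow on the side `F` of a separation with the roots `Z` -/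
structure RF (A : Γ → Prop) (s t : E → V) (Z : Finset V) (F : Finset E) (f : E → Γ) : Prop where
  a : ∀ e ∈ F, A (f e)
  o : ∀ v, v ∉ Z → bd s t (rs F f) v = 0

/-- two flows on the sides which agree -/
theorem RF.glue {A : Γ → Prop} {s t : E → V} {Z : Finset V} {F : Finset E} {f1 f2 : E → Γ}
    (h1 : RF A s t Z F f1) (h2 : RF A s t Z Fᶜ f2)
    (h : ∀ z ∈ Z, bd s t (rs F f1) z + bd s t (rs Fᶜ f2) z = 0) :
    AF A s t (rs F f1 + rs Fᶜ f2) := by
  refine ⟨fun v => ?_, fun e => ?_⟩
  · rw [bd_add]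
    by_cases hv : v ∈ Z
    · exact h v hv
    · rw [h1.o v hv, h2.o v hv, add_zero]
  · rw [Pi.add_apply]
    by_cases he : e ∈ F
    · have : e ∉ Fᶜ := by simp [he]
      simp only [rs, he, this, if_true, if_false, add_zero]
      exact h1.a e he
    · have h3 : e ∈ Fᶜ := by simp [he]
      simp only [rs, he, h3, if_true, if_false, zero_add]
      exact h2.a e h3

theorem rs_in {F : Finset E} {f1 f2 : E → Γ} {e : E} (he : e ∈ F) :
    (rs F f1 + rs Fᶜ f2) e = f1 e := by
  have : e ∉ Fᶜ := by simp [he]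
  rw [Pi.add_apply]
  simp only [rs, he, this, if_true, if_false, add_zero]

theorem rs_out {F : Finset E} {f1 f2 : E → Γ} {e : E} (he : e ∉ F) :
    (rs F f1 + rs Fᶜ f2) e = f2 e := by
  have : e ∈ Fᶜ := by simp [he]
  rw [Pi.add_apply]
  simp only [rs, he, this, if_true, if_false, zero_add]

/-- the edges which are deleted when the other side of `F` is replaced by a star -/
def dd (s t : E → V) (Z K : Finset V) (F : Finset E) (en : V → E) : Finset E :=
  univ.filter (fun e => e ∉ F ∧ ¬ (s e ∈ K ∧ t e ∈ K) ∧ ∀ z ∈ Z, e ≠ en z)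

theorem mem_dd {s t : E → V} {Z K : Finset V} {F : Finset E} {en : V → E} {e : E} :
    e ∈ dd s t Z K F en ↔ e ∉ F ∧ ¬ (s e ∈ K ∧ t e ∈ K) ∧ ∀ z ∈ Z, e ≠ en z := by simp [dd]

/-- The properties of one side `F` of a separation with the roots `Z`. -/
structure SP (A : Γ → Prop) (s t : E → V) (Z : Finset V) (F : Finset E) : Prop where
  ex : ∃ f, RF A s t Z F f ∧ ∀ z ∈ Z, A (bd s t (rs F f) z)
  re : ∀ β : V → Γ, (∀ z ∈ Z, A (β z)) → ∑ z ∈ Z, β z = 0 →
    ∃ f, RF A s t Z F f ∧ ∀ z ∈ Z, bd s t (rs F f) z = β z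
  fe : ∀ e ∈ F, ∀ x, s e ≠ t e → A x →
    ∃ f, RF A s t Z F f ∧ (∀ z ∈ Z, A (bd s t (rs F f) z)) ∧ f e = x
  fv : ∀ w, (crs s t {w}).card = 3 → (crs s t {w} ⊆ F ∨ (w ∈ Z ∧ (crs s t {w} \ F).card = 1)) →
    ∀ g : E → Γ, bd s t g w = 0 → (∀ e ∈ crs s t {w}, A (g e)) →
    ∃ f, RF A s t Z F f ∧ (∀ z ∈ Z, A (bd s t (rs F f) z)) ∧ ∀ e ∈ crs s t {w}, e ∈ F → f e = g e

/-- the sign of the edge `e` at `z` -/
def sg (s : E → V) (z : V) (e : E) (x : Γ) : Γ := if s e = z then x else - x

theorem sg_sg (s : E → V) (z : V) (e : E) (x : Γ) : sg s z e (sg s z e x) = x := by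
  unfold sg; split_ifs <;> simp

theorem sg_A {A : Γ → Prop} (hA : ∀ x, A x → A (-x)) (s : E → V) (z : V) (e : E) {x : Γ}
    (h : A x) : A (sg s z e x) := by
  unfold sg; split_ifs
  · exact h
  · exact hA _ h

theorem bd_single_att {s t : E → V} {K : Finset V} {z : V} {e : E} (h : Att s t K z e)
    (hz : z ∉ K) (x : Γ) : bd s t (Pi.single e x) z = sg s z e x := by
  rw [bd_single]
  unfold sg
  rcases h with ⟨h1, h2⟩ | ⟨h1, h2⟩
  · have h3 : s e ≠ z := fun h4 => hz (h4 ▸ h1)
    rw [if_neg h3, if_pos h2, if_neg h3, zero_sub]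
  · have h3 : t e ≠ z := fun h4 => hz (h4 ▸ h1)
    rw [if_pos h2, if_neg h3, if_pos h2, sub_zero]

/-- one side of a separation is replaced by a star -/
theorem star {A : Γ → Prop} (hA : ∀ x, A x → A (-x)) {s t : E → V} (h : MinH A s t)
    {Z K : Finset V} {F : Finset E}
    (hZ2 : 2 ≤ Z.card) (hZ3 : Z.card ≤ 3) (hKZ : ∀ z ∈ Z, z ∉ K)
    (hK : Conn s t K) (hKF : ∀ e, (s e ∈ K ∨ t e ∈ K) → e ∉ F) (en : V → E)
    (hen : ∀ z ∈ Z, Att s t K z (en z))
    (hl : ∀ Y : Finset V, ∀ z ∈ Z, ∀ z' ∈ Z, z ∈ Y → z' ∉ Y → ∃ e ∈ F, e ∈ crs s t Y)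
    (hY : ∀ Y : Finset V, (∀ z ∈ Z, z ∉ Y) → ∃ Y', crs s t Y' = crs s t Y ∩ F)
    (hne : ∃ e, e ∉ F ∧ s e ≠ t e ∧ ∀ z ∈ Z, e ≠ en z) : SP A s t Z F := by
  classical
  have hZ : ∀ z ∈ Z, ∃ z' ∈ Z, z' ≠ z := fun z _ => exists_mem_ne (by omega) z
  have hZ0 : Z.Nonempty := card_pos.mp (by omega)
  set D : Finset E := dd s t Z K F en with hD
  obtain ⟨z0, hz0⟩ := hZ0
  obtain ⟨k, hk⟩ : ∃ k, k ∈ K := by
    rcases hen z0 hz0 with ⟨h3, _⟩ | ⟨h3, _⟩
    · exact ⟨_, h3⟩
    · exact ⟨_, h3⟩
  have henK : ∀ z ∈ Z, s (en z) ∈ K ∨ t (en z) ∈ K := by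
    intro z hz
    rcases hen z hz with ⟨h3, _⟩ | ⟨h3, _⟩
    · exact Or.inl h3
    · exact Or.inr h3
  have henF : ∀ z ∈ Z, en z ∉ F := fun z hz => hKF _ (henK z hz)
  have henC : ∀ z ∈ Z, ¬ (s (en z) ∈ K ∧ t (en z) ∈ K) := by
    intro z hz hc
    rcases hen z hz with ⟨h3, h4⟩ | ⟨h3, h4⟩
    · exact hKZ z hz (h4 ▸ hc.2)
    · exact hKZ z hz (h4 ▸ hc.1)
  have henD : ∀ z ∈ Z, en z ∉ D := fun z hz hd => (mem_dd.mp hd).2.2 z hz rfl
  have hFD : ∀ e ∈ F, e ∉ D := fun e he hd => (mem_dd.mp hd).1 he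
  have hinj : ∀ z ∈ Z, ∀ z' ∈ Z, en z = en z' → z = z' := by
    intro z hz z' hz' h1
    have h2 := hen z' hz'
    rw [← h1] at h2
    exact (hen z hz).inj h2 (hKZ z hz)
  set s' := cK K k s with hs'
  set t' := dl (cK K k s) (cK K k t) D with ht'
  -- the minor has no bridge
  have hP : Pr A s' t' := by
    refine h.cr K k D hk hK ?_ ?_
    · obtain ⟨e, h1, h2, h3⟩ := hne
      refine ⟨e, h2, ?_⟩
      by_cases h4 : s e ∈ K ∧ t e ∈ K
      · exact Or.inr h4
      · exact Or.inl (mem_dd.mpr ⟨h1, h4, h3⟩)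
    · intro Y1 hcard
      rw [crs_mn] at hcard
      set Y := pre K k Y1 with hYdef
      have hYK : ∀ y ∈ K, (y ∈ Y ↔ k ∈ Y) := by
        intro y hy
        rw [hYdef, mem_pre, mem_pre, if_pos hy, if_pos hk]
      have hYC : ∀ e ∈ crs s t Y, ¬ (s e ∈ K ∧ t e ∈ K) := by
        rintro e he ⟨h1, h2⟩
        rw [mem_crs, hYK _ h1, hYK _ h2] at he
        exact he Iff.rfl
      obtain ⟨g, hg⟩ := card_eq_one.mp hcard
      have hone : ∀ e, e ∈ crs s t Y → e ∉ D → e = g := by
        intro e h1 h2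
        have : e ∈ crs s t Y \ D := mem_sdiff.mpr ⟨h1, h2⟩
        rw [hg] at this
        exact mem_singleton.mp this
      have hcr : ∀ z ∈ Z, (en z ∈ crs s t Y ↔ ¬ (z ∈ Y ↔ k ∈ Y)) :=
        fun z hz => (hen z hz).side hYK
      by_cases hAA : ∃ z ∈ Z, ¬ (z ∈ Y ↔ k ∈ Y)
      · obtain ⟨z, hz, hzk⟩ := hAA
        have h5 : en z = g := hone _ ((hcr z hz).mpr hzk) (henD z hz)
        obtain ⟨z', hz', hzz⟩ := hZ z hz
        by_cases hzk' : z' ∈ Y ↔ k ∈ Y
        · have h6 : ∃ e ∈ F, e ∈ crs s t Y := by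
            by_cases h7 : z ∈ Y
            · exact hl Y z hz z' hz' h7 (by tauto)
            · exact hl Y z' hz' z hz (by tauto) h7
          obtain ⟨e, he, he2⟩ := h6
          have h8 := hone e he2 (hFD e he)
          rw [← h5] at h8
          exact henF z hz (h8 ▸ he)
        · have h6 : en z' = g := hone _ ((hcr z' hz').mpr hzk') (henD z' hz')
          exact hzz (hinj z hz z' hz' (h5.trans h6.symm)).symm
      · push Not at hAA
        have h5 : crs s t Y \ D = crs s t Y ∩ F := by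
          ext e
          rw [mem_sdiff, mem_inter]
          constructor
          · rintro ⟨h6, h7⟩
            refine ⟨h6, ?_⟩
            by_contra h8
            apply h7
            refine mem_dd.mpr ⟨h8, hYC e h6, fun z hz h9 => ?_⟩
            rw [h9, hcr z hz] at h6
            exact h6 (hAA z hz)
          · rintro ⟨h6, h7⟩
            exact ⟨h6, hFD e h7⟩
        have h6 : ∃ Y', crs s t Y' = crs s t Y ∩ F := by
          by_cases h7 : k ∈ Y
          · obtain ⟨Y', hY'⟩ := hY Yᶜ (fun z hz => by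
              rw [mem_compl, not_not]; exact (hAA z hz).mpr h7)
            exact ⟨Y', by rw [hY', crs_compl]⟩
          · exact hY Y (fun z hz h8 => h7 ((hAA z hz).mp h8))
        obtain ⟨Y', hY'⟩ := h6
        apply h.br Y'
        rw [hY', ← h5]
        exact hcard
  -- the boundary on the side `F`
  have hb0 : ∀ f : E → Γ, (∀ v, bd s' t' f v = 0) → ∀ v, v ∉ Z → bd s t (rs F f) v = 0 := by
    intro f hf v hv
    by_cases hvK : v ∈ K
    · refine bd_zero_of fun e _ he => ?_
      have : e ∉ F := hKF e (by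
        rcases he with he | he
        · exact Or.inl (he ▸ hvK)
        · exact Or.inr (he ▸ hvK))
      simp [rs, this]
    · rw [← hf v, bd_mn hk s t D f hvK]
      refine bd_eq_of fun e _ he => ?_
      unfold rs
      by_cases h1 : e ∈ F
      · have h2 : e ∈ Dᶜ := mem_compl.mpr (hFD e h1)
        rw [if_pos h1, if_pos h2]
      · have h2 : e ∉ Dᶜ := by
          rw [mem_compl, not_not]
          refine mem_dd.mpr ⟨h1, fun h3 => ?_, fun z hz h3 => ?_⟩
          · rcases he with he | he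
            · exact hvK (he ▸ h3.1)
            · exact hvK (he ▸ h3.2)
          · subst h3
            rcases hen z hz with ⟨h4, h5⟩ | ⟨h4, h5⟩
            · rcases he with he | he
              · exact hvK (he ▸ h4)
              · exact hv (by rw [← he, h5]; exact hz)
            · rcases he with he | he
              · exact hv (by rw [← he, h5]; exact hz)
              · exact hvK (he ▸ h4)
        rw [if_neg h1, if_neg h2]
  have hb1 : ∀ f : E → Γ, (∀ v, bd s' t' f v = 0) → ∀ z ∈ Z,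
      bd s t (rs F f) z = - sg s z (en z) (f (en z)) := by
    intro f hf z hz
    have h1 : bd s t (rs F f + Pi.single (en z) (f (en z))) z = 0 := by
      rw [← hf z, bd_mn hk s t D f (hKZ z hz)]
      refine bd_eq_of fun e _ he => ?_
      rw [Pi.add_apply]
      unfold rs
      by_cases h1 : e = en z
      · subst h1
        have h2 : en z ∈ Dᶜ := mem_compl.mpr (henD z hz)
        rw [if_neg (henF z hz), if_pos h2, Pi.single_eq_same, zero_add]
      · rw [Pi.single_eq_of_ne h1, add_zero]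
        by_cases h2 : e ∈ F
        · have h3 : e ∈ Dᶜ := mem_compl.mpr (hFD e h2)
          rw [if_pos h2, if_pos h3]
        · have h3 : e ∉ Dᶜ := by
            rw [mem_compl, not_not]
            refine mem_dd.mpr ⟨h2, fun h3 => ?_, fun z' hz' h3 => ?_⟩
            · rcases he with he | he
              · exact hKZ z hz (he ▸ h3.1)
              · exact hKZ z hz (he ▸ h3.2)
            · apply h1
              have h4 := hen z' hz'
              rw [← h3] at h4
              have h5 : z' = z := by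
                rcases h4 with ⟨h8, h9⟩ | ⟨h8, h9⟩
                · rcases he with he | he
                  · exact absurd (he ▸ h8) (hKZ z hz)
                  · exact h9.symm.trans he
                · rcases he with he | he
                  · exact h9.symm.trans he
                  · exact absurd (he ▸ h8) (hKZ z hz)
              rw [h3, h5]
          rw [if_neg h2, if_neg h3]
    rw [bd_add, bd_single_att (hen z hz) (hKZ z hz)] at h1
    exact eq_neg_of_add_eq_zero_left h1
  have hRF : ∀ f : E → Γ, AF A s' t' f → RF A s t Z F f ∧ ∀ z ∈ Z, A (bd s t (rs F f) z) := by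
    intro f hf
    refine ⟨⟨fun e _ => hf.2 e, hb0 f hf.1⟩, fun z hz => ?_⟩
    rw [hb1 f hf.1 z hz]
    exact hA _ (sg_A hA s z (en z) (hf.2 _))
  -- proper edges
  have hF' : ∀ e ∈ F, s' e = s e ∧ t' e = t e := by
    intro e he
    have h1 : s e ∉ K := fun h2 => hKF e (Or.inl h2) he
    have h2 : t e ∉ K := fun h2 => hKF e (Or.inr h2) he
    refine ⟨if_neg h1, ?_⟩
    rw [ht']
    unfold dl
    rw [if_neg (hFD e he)]
    exact if_neg h2
  have hen' : ∀ z ∈ Z, s' (en z) ≠ t' (en z) := by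
    intro z hz
    have h1 : t' (en z) = cK K k t (en z) := by
      rw [ht']; unfold dl; rw [if_neg (henD z hz)]
    rw [h1, hs']
    unfold cK
    have hzk : z ≠ k := fun h2 => hKZ z hz (h2 ▸ hk)
    rcases hen z hz with ⟨h3, h4⟩ | ⟨h3, h4⟩
    · rw [if_pos h3, if_neg (by rw [h4]; exact hKZ z hz), h4]
      exact hzk.symm
    · rw [if_pos h3, if_neg (by rw [h4]; exact hKZ z hz), h4]
      exact hzk
  -- the star at `k`
  have hstar : ∀ w, w ∉ K → crs s' t' {w} = crs s t {w} \ D := by
    intro w hw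
    rw [hs', ht', crs_mn]
    congr 1
    congr 1
    ext v
    rw [mem_pre, mem_singleton, mem_singleton]
    split_ifs with h1
    · exact ⟨fun h2 => absurd (h2 ▸ hk) hw, fun h2 => absurd (h2 ▸ h1) hw⟩
    · exact Iff.rfl
  have hk' : crs s' t' {k} = Z.image en := by
    ext e
    rw [mem_crs1, mem_image]
    constructor
    · rintro ⟨h1, h2⟩
      by_contra h3
      push Not at h3
      have h4 : e ∉ F := by
        intro h5
        obtain ⟨h6, h7⟩ := hF' e h5
        rw [h6, h7] at h2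
        exact hKF e (by
          rcases h2 with h2 | h2
          · exact Or.inl (h2 ▸ hk)
          · exact Or.inr (h2 ▸ hk)) h5
      by_cases h5 : s e ∈ K ∧ t e ∈ K
      · apply h1
        rw [ht', hs']
        unfold dl cK
        rw [if_pos h5.1, if_pos h5.2, ite_self]
      · apply h1
        rw [ht', hs']
        unfold dl
        rw [if_pos (mem_dd.mpr ⟨h4, h5, fun z hz h6 => h3 z hz h6.symm⟩)]
    · rintro ⟨z, hz, rfl⟩
      refine ⟨hen' z hz, ?_⟩
      have h1 : t' (en z) = cK K k t (en z) := by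
        rw [ht']; unfold dl; rw [if_neg (henD z hz)]
      rw [h1, hs']
      unfold cK
      rcases hen z hz with ⟨h3, h4⟩ | ⟨h3, h4⟩
      · exact Or.inl (if_pos h3)
      · exact Or.inr (if_pos h3)
  refine ⟨?_, ?_, ?_, ?_⟩
  · obtain ⟨f, hf⟩ := hP.ex
    exact ⟨f, hRF f hf⟩
  · intro β hβ hs
    have hcases : Z.card = 2 ∨ Z.card = 3 := by omega
    rcases hcases with hc | hc
    · obtain ⟨a, b, hab, rfl⟩ := card_eq_two.mp hc
      have ma : a ∈ ({a, b} : Finset V) := by simp
      have mb : b ∈ ({a, b} : Finset V) := by simp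
      obtain ⟨f, hf, hfe⟩ := hP.fe (en a) (sg s a (en a) (- β a)) (hen' a ma)
        (sg_A hA _ _ _ (hA _ (hβ a ma)))
      have h1 : bd s t (rs F f) a = β a := by
        rw [hb1 f hf.1 a ma, hfe, sg_sg, neg_neg]
      have h2 : ∑ z ∈ ({a, b} : Finset V), bd s t (rs F f) z = 0 := by
        rw [← sum_bd_univ s t (rs F f)]
        exact sum_subset (subset_univ _) (fun v _ hv => hb0 f hf.1 v hv)
      rw [sum_pair hab] at h2 hs
      refine ⟨f, (hRF f hf).1, fun z hz => ?_⟩
      rw [mem_insert, mem_singleton] at hz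
      rcases hz with rfl | rfl
      · exact h1
      · rw [h1] at h2
        exact add_left_cancel (h2.trans hs.symm)
    · have hc3 : (crs s' t' {k}).card = 3 := by
        rw [hk', card_image_of_injOn (fun z hz z' hz' h1 => hinj z hz z' hz' h1), hc]
      set g : E → Γ := fun e => ∑ z ∈ Z, if e = en z then sg s z e (- β z) else 0 with hg
      have hge : ∀ z ∈ Z, g (en z) = sg s z (en z) (- β z) := by
        intro z hz
        rw [hg]
        beta_reduce
        rw [sum_eq_single z]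
        · rw [if_pos rfl]
        · intro z' hz' hne
          rw [if_neg]
          intro h1
          exact hne (hinj z hz z' hz' h1).symm
        · intro h1; exact absurd hz h1
      obtain ⟨f, hf, hfg⟩ := hP.fv k hc3 g (by
        rw [bd_crs, hk', sum_image (fun z hz z' hz' h1 => hinj z hz z' hz' h1), ← hs]
        refine sum_congr rfl fun z hz => ?_
        rw [hge z hz]
        have hzk : z ≠ k := fun h2 => hKZ z hz (h2 ▸ hk)
        rw [hs']
        unfold sg cK
        rcases hen z hz with ⟨h3, h4⟩ | ⟨h3, h4⟩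
        · have h5 : s (en z) ≠ z := fun h6 => hKZ z hz (h6 ▸ h3)
          rw [if_pos h3, if_pos rfl, if_neg h5, neg_neg]
        · have h5 : s (en z) ∉ K := by rw [h4]; exact hKZ z hz
          rw [if_neg h5, if_pos h4, if_neg (by rw [h4]; exact hzk), neg_neg]) (by
        intro e he
        rw [hk', mem_image] at he
        obtain ⟨z, hz, rfl⟩ := he
        rw [hge z hz]
        exact sg_A hA _ _ _ (hA _ (hβ z hz)))
      refine ⟨f, (hRF f hf).1, fun z hz => ?_⟩
      rw [hb1 f hf.1 z hz, hfg (en z) (by rw [hk']; exact mem_image_of_mem _ hz), hge z hz, sg_sg,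
        neg_neg]
  · intro e he x hne' hx
    obtain ⟨h1, h2⟩ := hF' e he
    obtain ⟨f, hf, hfe⟩ := hP.fe e x (by rw [h1, h2]; exact hne') hx
    exact ⟨f, (hRF f hf).1, (hRF f hf).2, hfe⟩
  · intro w hw3 hw g hg hgA
    have hwK : w ∉ K := by
      intro hwK
      rcases hw with h1 | ⟨h1, _⟩
      · obtain ⟨e, he⟩ : (crs s t {w}).Nonempty := card_pos.mp (by omega)
        have h2 := (mem_crs1.mp he).2
        exact hKF e (by
          rcases h2 with h2 | h2
          · exact Or.inl (h2 ▸ hwK)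
          · exact Or.inr (h2 ▸ hwK)) (h1 he)
      · exact hKZ w h1 hwK
    have hdis : crs s t {w} \ D = crs s t {w} := by
      rw [Finset.sdiff_eq_self_iff_disjoint, disjoint_left]
      intro e he heD
      have h2 := mem_dd.mp heD
      rcases hw with h1 | ⟨h1, h3⟩
      · exact h2.1 (h1 he)
      · obtain ⟨d, hd⟩ := card_eq_one.mp h3
        have h4 : e ∈ crs s t {w} \ F := mem_sdiff.mpr ⟨he, h2.1⟩
        have h5 : en w ∈ crs s t {w} \ F := by
          refine mem_sdiff.mpr ⟨mem_crs1.mpr ⟨?_, ?_⟩, henF w h1⟩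
          · intro h6
            rcases hen w h1 with ⟨h7, h8⟩ | ⟨h7, h8⟩
            · exact hwK (h8 ▸ h6 ▸ h7)
            · exact hwK (h8 ▸ h6.symm ▸ h7)
          · rcases hen w h1 with ⟨_, h8⟩ | ⟨_, h8⟩
            · exact Or.inr h8
            · exact Or.inl h8
        rw [hd, mem_singleton] at h4 h5
        exact h2.2.2 w h1 (h4.trans h5.symm)
    have hcr := hstar w hwK
    rw [hdis] at hcr
    obtain ⟨f, hf, hfg⟩ := hP.fv w (by rw [hcr]; exact hw3) g (by
      rw [bd_mn hk s t D g hwK, ← hg]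
      refine bd_eq_of fun e h1 h2 => ?_
      have h3 : e ∈ crs s t {w} \ D := by rw [hdis]; exact mem_crs1.mpr ⟨h1, h2⟩
      unfold rs
      rw [if_pos (mem_compl.mpr (mem_sdiff.mp h3).2)]) (by rw [hcr]; exact hgA)
    rw [hcr] at hfg
    exact ⟨f, (hRF f hf).1, (hRF f hf).2, fun e he _ => hfg e he⟩

end Pool.Agent.Zk83.AT
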